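import Mathlib
set_option autoImplicit false
open Set Filter Topology
open scoped ContDiff Manifold

/-!
# Lorentzian metrics and closed geodesics on smooth manifolds

`M` is a manifold modelled on `ℝⁿ = EuclideanSpace ℝ (Fin n)` (so without boundary). As in Mathlib, where
`TangentSpace (𝓡 n) p` is by definition `EuclideanSpace ℝ (Fin n)`, a tangent vector at `p` is given by its
components in the preferred chart `chartAt _ p` at `p`.
-/
namespace Pool.Agent.H660R3

variable {n : ℕ} {M : Type*} [TopologicalSpace M] [ChartedSpace (EuclideanSpace ℝ (Fin n)) M]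

/-- the derivative of `F` at `y` in the direction `a`. -/
noncomputable def dirD (F : EuclideanSpace ℝ (Fin n) → ℝ) (y a : EuclideanSpace ℝ (Fin n)) : ℝ :=
  fderiv ℝ F y a

/-- Change of coordinates of tangent vectors: the derivative, at `y`, of the transition map from the chart
at `x₀` to the chart at `p`. It sends the components of a tangent vector in the chart at `x₀` to its
components in the chart at `p`. -/
noncomputable def tanChange (x₀ p : M) (y u : EuclideanSpace ℝ (Fin n)) : EuclideanSpace ℝ (Fin n) :=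
  fderiv ℝ (fun z => chartAt (EuclideanSpace ℝ (Fin n)) p
    ((chartAt (EuclideanSpace ℝ (Fin n)) x₀).symm z)) y u

/-- Coordinate expression, in the chart `φ` at `x₀`, of a field `g` of bilinear forms on the tangent spaces
of `M`: `coordForm g x₀ y u v = g_p(u, v)` with `p = φ⁻¹(y)`, the tangent vectors `u`, `v` at `p` being given
by their components in `φ`. So `coordForm g x₀ y e_i e_j` are the usual components `g_{ij}(y)`. -/
noncomputable def coordForm
    (g : M → EuclideanSpace ℝ (Fin n) → EuclideanSpace ℝ (Fin n) → ℝ) (x₀ : M)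
    (y u v : EuclideanSpace ℝ (Fin n)) : ℝ :=
  let p := (chartAt (EuclideanSpace ℝ (Fin n)) x₀).symm y
  g p (tanChange x₀ p y u) (tanChange x₀ p y v)

/-- `β` is a symmetric bilinear form on `ℝⁿ`. -/
def IsSymBil (β : EuclideanSpace ℝ (Fin n) → EuclideanSpace ℝ (Fin n) → ℝ) : Prop :=
  (∀ v, IsLinearMap ℝ fun u => β u v) ∧ ∀ u v, β u v = β v u

/-- `β` has signature `(+,-,...,-)`: there are `n` vectors `b_i` (necessarily a basis of `ℝⁿ`) with
`β(b_i, b_j) = 0` for `i ≠ j`, `β(b_0, b_0) = 1` and `β(b_i, b_i) = -1` for `i ≠ 0`. -/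
def HasLorSig (β : EuclideanSpace ℝ (Fin n) → EuclideanSpace ℝ (Fin n) → ℝ) : Prop :=
  ∃ b : Fin n → EuclideanSpace ℝ (Fin n), ∀ i j,
    β (b i) (b j) = if i = j then (if (i : ℕ) = 0 then 1 else -1) else 0

variable (n M) in
/-- A smooth Lorentzian metric on `M`, of signature `(+,-,...,-)`. -/
structure LorentzMetric where
  /-- the bilinear form on the tangent space at `p` -/
  val : M → EuclideanSpace ℝ (Fin n) → EuclideanSpace ℝ (Fin n) → ℝ
  symBil : ∀ p, IsSymBil (val p)
  signature : ∀ p, HasLorSig (val p)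
  /-- it is smooth: its components in the charts are `C^∞` -/
  smooth : ∀ (x₀ : M) (u v : EuclideanSpace ℝ (Fin n)),
    ContDiffOn ℝ ∞ (fun y => coordForm val x₀ y u v) (chartAt (EuclideanSpace ℝ (Fin n)) x₀).target

/-- the curve `γ` in the chart at `γ t`. -/
noncomputable def inChart (γ : ℝ → M) (t s : ℝ) : EuclideanSpace ℝ (Fin n) :=
  chartAt (EuclideanSpace ℝ (Fin n)) (γ t) (γ s)

/-- `geodForm G y v a w = G(a, w) + (D_v G)(v, w) - (1/2) (D_w G)(v, v)` at `y`. By the Koszul formula this is
`Σ G_{kl} (a^k + Γ^k_{ij} v^i v^j) w^l`, with `Γ^k_{ij}` the Christoffel symbols of `G`. -/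
noncomputable def geodForm
    (G : EuclideanSpace ℝ (Fin n) → EuclideanSpace ℝ (Fin n) → EuclideanSpace ℝ (Fin n) → ℝ)
    (y v a w : EuclideanSpace ℝ (Fin n)) : ℝ :=
  G y a w + dirD (fun z => G z v w) y v - (1 / 2) * dirD (fun z => G z v v) y w

/-- The geodesic equation `∇_{γ'} γ' = 0` at the time `t`, for the Levi-Civita connection of `g`, in the
chart `φ` at `γ t`: with `c = φ ∘ γ` it says `c''^k + Γ^k_{ij} c'^i c'^j = 0`, in the form
`g (∇_{γ'} γ', w) = 0` for all `w`. -/
def IsGeodesicAt (g : LorentzMetric n M) (γ : ℝ → M) (t : ℝ) : Prop :=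
  ∀ w : EuclideanSpace ℝ (Fin n), geodForm (coordForm g.val (γ t)) (inChart γ t t)
    (deriv (inChart γ t) t) (deriv (deriv (inChart γ t)) t) w = 0

/-- `γ` is a closed geodesic of `(M, g)` with parameter circle `ℝ / Lℤ`: a smooth embedding of the circle
`ℝ / Lℤ` in `M`, written as an `L`-periodic map `ℝ → M`, with `∇_{γ'} γ' = 0` at all times. -/
structure IsClosedGeodesic (g : LorentzMetric n M) (γ : ℝ → M) (L : ℝ) : Prop where
  pos : 0 < L
  periodic : ∀ t, γ (t + L) = γ t
  smooth : ContMDiff 𝓘(ℝ, ℝ) (𝓡 n) ∞ γ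
  /-- `γ` is injective on `ℝ / Lℤ` -/
  injective : ∀ s t, γ s = γ t → ∃ k : ℤ, t = s + k * L
  /-- `γ` is an immersion -/
  immersion : ∀ t, deriv (inChart (n := n) γ t) t ≠ 0
  geodesic : ∀ t, IsGeodesicAt g γ t

end Pool.Agent.H660R3
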