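import Mathlib
import Pool.Agent.H660R3.LorDefs
set_option autoImplicit false
open Set Filter Topology
open scoped ContDiff Manifold

/-!
# Exact locally conformally symplectic structures and Reeb curves

`M` is a manifold modelled on `ℝⁿ = EuclideanSpace ℝ (Fin n)` (so without boundary). As in Mathlib, where
`TangentSpace (𝓡 n) p` is by definition `EuclideanSpace ℝ (Fin n)`, a tangent vector at `p` is given by its
components in the preferred chart `chartAt _ p` at `p`. The definitions `dirD` (directional derivative),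
`tanChange` (change of coordinates of tangent vectors) and `inChart` (a curve in the chart at one of its
points) are in `Pool.Agent.H660R3.LorDefs`.
-/
namespace Pool.Agent.H660R3

variable {n : ℕ} {M : Type*} [TopologicalSpace M] [ChartedSpace (EuclideanSpace ℝ (Fin n)) M]

/-- Coordinate expression, in the chart `φ` at `x₀`, of a field `β` of linear forms on the tangent spaces:
`coordOne β x₀ y u = β_p(u)` with `p = φ⁻¹(y)`, the tangent vector `u` at `p` being given by its components
in `φ`. So `coordOne β x₀ y e_i` are the usual components `β_i(y)`. -/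
noncomputable def coordOne (β : M → EuclideanSpace ℝ (Fin n) → ℝ) (x₀ : M)
    (y u : EuclideanSpace ℝ (Fin n)) : ℝ :=
  let p := (chartAt (EuclideanSpace ℝ (Fin n)) x₀).symm y
  β p (tanChange x₀ p y u)

variable (n M) in
/-- A smooth differential 1-form on `M`. -/
structure OneForm where
  /-- the linear form on the tangent space at `p` -/
  val : M → EuclideanSpace ℝ (Fin n) → ℝ
  linear : ∀ p, IsLinearMap ℝ (val p)
  /-- it is smooth: its components in the charts are `C^∞` -/
  smooth : ∀ (x₀ : M) (u : EuclideanSpace ℝ (Fin n)),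
    ContDiffOn ℝ ∞ (fun y => coordOne val x₀ y u) (chartAt (EuclideanSpace ℝ (Fin n)) x₀).target

/-- The exterior derivative of a 1-form at `p`, in the chart at `p`:
`dβ(u, v) = D_u (β(v)) - D_v (β(u)) = Σ (∂_i β_j - ∂_j β_i) u^i v^j`. -/
noncomputable def OneForm.d (β : OneForm n M) (p : M) (u v : EuclideanSpace ℝ (Fin n)) : ℝ :=
  dirD (fun y => coordOne β.val p y v) (chartAt (EuclideanSpace ℝ (Fin n)) p p) u -
    dirD (fun y => coordOne β.val p y u) (chartAt (EuclideanSpace ℝ (Fin n)) p p) v

/-- The 2-form `d^α λ = dλ - α ∧ λ`. -/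
noncomputable def lcsForm (lam alpha : OneForm n M) (p : M) (u v : EuclideanSpace ℝ (Fin n)) : ℝ :=
  lam.d p u v - (alpha.val p u * lam.val p v - alpha.val p v * lam.val p u)

/-- `(λ, α)` is an exact lcs structure: `dα = 0` and `dλ - α ∧ λ` is non-degenerate. -/
structure IsExactLcs (lam alpha : OneForm n M) : Prop where
  closed : ∀ p u v, alpha.d p u v = 0
  nondeg : ∀ p u, (∀ v, lcsForm lam alpha p u v = 0) → u = 0

/-- The velocity of a curve, in the chart at `γ t`. -/
noncomputable def velocity (γ : ℝ → M) (t : ℝ) : EuclideanSpace ℝ (Fin n) := deriv (inChart γ t) t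

/-- `α` is rational: its period `∫_c α` over every smooth loop `c : ℝ/ℤ → M` is rational. -/
def IsRationalForm (alpha : OneForm n M) : Prop :=
  ∀ c : ℝ → M, ContMDiff 𝓘(ℝ, ℝ) (𝓡 n) ∞ c → (∀ t, c (t + 1) = c t) →
    ∃ q : ℚ, ∫ t in (0 : ℝ)..1, alpha.val (c t) (velocity c t) = q

/-- `o` is a Reeb curve of `λ`: a smooth map `o : ℝ/ℤ → M` (a 1-periodic smooth map `ℝ → M`) whose velocity
at every time lies in `C_λ = {v : dλ(v, ·) = 0 and λ(v) > 0}`. -/
structure IsReebCurve (lam : OneForm n M) (o : ℝ → M) : Prop where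
  smooth : ContMDiff 𝓘(ℝ, ℝ) (𝓡 n) ∞ o
  periodic : ∀ t, o (t + 1) = o t
  kernel : ∀ t w, lam.d (o t) (velocity o t) w = 0
  pos : ∀ t, 0 < lam.val (o t) (velocity o t)

end Pool.Agent.H660R3
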