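import Mathlib
set_option autoImplicit false
open Set Filter Topology
open scoped ContDiff

/-!
# A smooth staircase function
-/
namespace Pool.Agent.H660R3.Stair

/-- smooth staircase: `Es (t+1) = Es t + 1`, locally constant outside `⋃ [k + 7/16, k + 9/16]`. -/
noncomputable def Es (t : ℝ) : ℝ := ⌊t⌋ + Real.smoothTransition (8 * (Int.fract t - 7 / 16))

theorem Es_add_int (t : ℝ) (m : ℤ) : Es (t + m) = Es t + m := by
  unfold Es
  rw [Int.floor_add_intCast, Int.fract_add_intCast]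
  push_cast; ring

theorem Es_local (t₀ : ℝ) : ∀ᶠ t in 𝓝 t₀,
    Es t = ⌊t₀⌋ + Real.smoothTransition (8 * (t - ⌊t₀⌋ - 7 / 16)) := by
  set k : ℤ := ⌊t₀⌋ with hk
  have h1 : (k : ℝ) ≤ t₀ := Int.floor_le t₀
  have h2 : t₀ < k + 1 := Int.lt_floor_add_one t₀
  have h3 : ∀ᶠ t in 𝓝 t₀, (k : ℝ) - 3 / 8 < t := lt_mem_nhds (by linarith)
  have h4 : ∀ᶠ t in 𝓝 t₀, t < (k : ℝ) + 1 + 3 / 8 := gt_mem_nhds (by linarith)
  filter_upwards [h3, h4] with t ht1 ht2
  unfold Es
  rcases lt_or_ge t k with h | h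
  · have hf : ⌊t⌋ = k - 1 := by
      rw [Int.floor_eq_iff]; push_cast; constructor <;> linarith
    have hfr : Int.fract t = t - k + 1 := by
      rw [Int.fract, hf]; push_cast; ring
    rw [hf, hfr, Real.smoothTransition.one_of_one_le (by linarith),
      Real.smoothTransition.zero_of_nonpos (by linarith)]
    push_cast; ring
  · rcases lt_or_ge t (k + 1) with h' | h'
    · have hf : ⌊t⌋ = k := by
        rw [Int.floor_eq_iff]; constructor <;> linarith
      have hfr : Int.fract t = t - k := by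
        rw [Int.fract, hf]
      rw [hf, hfr]
    · have hf : ⌊t⌋ = k + 1 := by
        rw [Int.floor_eq_iff]; push_cast; constructor <;> linarith
      have hfr : Int.fract t = t - k - 1 := by
        rw [Int.fract, hf]; push_cast; ring
      rw [hf, hfr, Real.smoothTransition.zero_of_nonpos (by linarith),
        Real.smoothTransition.one_of_one_le (by linarith)]
      push_cast; ring

theorem Es_smooth : ContDiff ℝ ∞ Es := by
  rw [contDiff_iff_contDiffAt]
  intro t₀
  have h : ContDiff ℝ ∞ fun t : ℝ => (⌊t₀⌋ : ℝ) +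
      Real.smoothTransition (8 * (t - ⌊t₀⌋ - 7 / 16)) := by
    apply contDiff_const.add
    exact Real.smoothTransition.contDiff.comp (by fun_prop)
  exact h.contDiffAt.congr_of_eventuallyEq (Es_local t₀)

/-- the derivative of the staircase. -/
noncomputable def ee (t : ℝ) : ℝ := deriv Es t

theorem hasDerivAt_Es (t : ℝ) : HasDerivAt Es (ee t) t :=
  (Es_smooth.differentiable (by simp)).differentiableAt.hasDerivAt

theorem ee_continuous : Continuous ee := Es_smooth.continuous_deriv (by simp)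

theorem ee_add_int (t : ℝ) (m : ℤ) : ee (t + m) = ee t := by
  have h1 : HasDerivAt (fun s => Es (s + m)) (ee (t + m)) t := (hasDerivAt_Es (t + m)).comp_add_const t m
  have h2 : HasDerivAt (fun s => Es (s + m)) (ee t) t := by
    have : (fun s => Es (s + m)) = fun s => Es s + m := funext fun s => Es_add_int s m
    rw [this]
    exact (hasDerivAt_Es t).add_const _
  exact h1.unique h2

theorem ee_supp {t : ℝ} (h : ee t ≠ 0) : 7 / 16 ≤ Int.fract t ∧ Int.fract t ≤ 9 / 16 := by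
  by_contra hcon
  apply h
  rw [not_and_or, not_le, not_le] at hcon
  have hl := Es_local t
  rcases hcon with hc | hc
  · have h1 : ∀ᶠ s : ℝ in 𝓝 t, Es s = (⌊t⌋ : ℝ) := by
      have h2 : ∀ᶠ s : ℝ in 𝓝 t, s < (⌊t⌋ : ℝ) + 7 / 16 := by
        apply gt_mem_nhds
        rw [Int.fract] at hc
        linarith
      filter_upwards [hl, h2] with s hs1 hs2
      rw [hs1, Real.smoothTransition.zero_of_nonpos (by linarith), add_zero]
    have h3 : Es =ᶠ[𝓝 t] fun _ => (⌊t⌋ : ℝ) := h1
    unfold ee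
    rw [h3.deriv_eq]
    simp
  · have h1 : ∀ᶠ s : ℝ in 𝓝 t, Es s = (⌊t⌋ : ℝ) + 1 := by
      have h2 : ∀ᶠ s : ℝ in 𝓝 t, (⌊t⌋ : ℝ) + 9 / 16 < s := by
        apply lt_mem_nhds
        rw [Int.fract] at hc
        linarith
      filter_upwards [hl, h2] with s hs1 hs2
      rw [hs1, Real.smoothTransition.one_of_one_le (by linarith)]
    have h3 : Es =ᶠ[𝓝 t] fun _ => (⌊t⌋ + 1 : ℝ) := h1
    unfold ee
    rw [h3.deriv_eq]
    simp

theorem ee_bounded : ∃ K : ℝ, 1 ≤ K ∧ ∀ t, |ee t| ≤ K := by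
  obtain ⟨C, hC⟩ := (isCompact_Icc (a := (0:ℝ)) (b := 1)).exists_bound_of_continuousOn
    ee_continuous.continuousOn
  refine ⟨max C 1, le_max_right _ _, fun t => ?_⟩
  have h1 : ee t = ee (Int.fract t) := by
    have := ee_add_int (Int.fract t) ⌊t⌋
    rw [Int.fract_add_floor] at this
    exact this
  rw [h1]
  exact (hC _ ⟨Int.fract_nonneg t, (Int.fract_lt_one t).le⟩).trans (le_max_left _ _)

/-- the sawtooth. -/
noncomputable def hs (t : ℝ) : ℝ := t - Es t

theorem hs_add_int (t : ℝ) (m : ℤ) : hs (t + m) = hs t := by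
  unfold hs; rw [Es_add_int]; ring

theorem hs_bound (t : ℝ) : |hs t| ≤ 1 := by
  have h1 : hs t = Int.fract t - Real.smoothTransition (8 * (Int.fract t - 7 / 16)) := by
    unfold hs Es
    rw [Int.fract]; ring
  rw [h1, abs_le]
  have h2 := Int.fract_nonneg t
  have h3 := Int.fract_lt_one t
  have h4 := Real.smoothTransition.nonneg (8 * (Int.fract t - 7 / 16))
  have h5 := Real.smoothTransition.le_one (8 * (Int.fract t - 7 / 16))
  constructor <;> linarith

theorem hs_smooth : ContDiff ℝ ∞ hs := contDiff_id.sub Es_smooth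

theorem hasDerivAt_hs (t : ℝ) : HasDerivAt hs (1 - ee t) t := (hasDerivAt_id t).sub (hasDerivAt_Es t)

/-- the supports of the translates by quarters are disjoint. -/
theorem ee_disjoint (t : ℝ) (i j : Fin 4) (hi : ee (t - (i : ℕ) / 4) ≠ 0)
    (hj : ee (t - (j : ℕ) / 4) ≠ 0) : i = j := by
  obtain ⟨a1, a2⟩ := ee_supp hi
  obtain ⟨b1, b2⟩ := ee_supp hj
  rw [Int.fract] at a1 a2 b1 b2
  set k := ⌊t - (i : ℕ) / 4⌋
  set l := ⌊t - (j : ℕ) / 4⌋
  have h1 : (((j : ℕ) : ℤ) - ((i : ℕ) : ℤ) - 4 * k + 4 * l : ℝ) < 1 := by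
    push_cast; linarith
  have h2 : (-1 : ℝ) < (((j : ℕ) : ℤ) - ((i : ℕ) : ℤ) - 4 * k + 4 * l : ℝ) := by
    push_cast; linarith
  have h3 : ((j : ℕ) : ℤ) - ((i : ℕ) : ℤ) - 4 * k + 4 * l < 1 := by exact_mod_cast h1
  have h4 : (-1 : ℤ) < ((j : ℕ) : ℤ) - ((i : ℕ) : ℤ) - 4 * k + 4 * l := by exact_mod_cast h2
  have hi4 := i.2
  have hj4 := j.2
  apply Fin.ext
  omega

end Pool.Agent.H660R3.Stair
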