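import Mathlib
set_option autoImplicit false
open Set Filter Topology
open scoped ContDiff Manifold

/-!
# Quotients of Euclidean space by free properly discontinuous groups of diffeomorphisms
-/
namespace Pool.Agent.H660R3

/-- Euclidean space `ℝⁿ`. -/
abbrev EE (n : ℕ) := EuclideanSpace ℝ (Fin n)

/-- `Γ` is a group of smooth diffeomorphisms of `ℝⁿ` acting freely and properly discontinuously. -/
class DiscGroup {n : ℕ} (Γ : Subgroup (Equiv.Perm (EE n))) : Prop where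
  smooth : ∀ γ ∈ Γ, ContDiff ℝ ∞ (γ : EE n → EE n)
  free : ∀ γ ∈ Γ, ∀ x, γ x = x → γ = 1
  pd : ∀ K L : Set (EE n), IsCompact K → IsCompact L →
    Set.Finite {γ : Γ | ((fun x => (γ : Equiv.Perm (EE n)) x) '' K ∩ L).Nonempty}

variable {n : ℕ} (Γ : Subgroup (Equiv.Perm (EE n))) [hΓ : DiscGroup Γ]

instance : ContinuousConstSMul Γ (EE n) where
  continuous_const_smul γ := (hΓ.smooth γ γ.2).continuous

instance : ProperlyDiscontinuousSMul Γ (EE n) where
  finite_disjoint_inter_image {K L} hK hL := hΓ.pd K L hK hL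

instance : IsCancelSMul Γ (EE n) := by
  rw [isCancelSMul_iff_eq_one_of_smul_eq]
  intro g x h
  apply Subtype.ext
  exact hΓ.free g g.2 x h

/-- The quotient manifold `ℝⁿ/Γ`. -/
abbrev QQ : Type := MulAction.orbitRel.Quotient Γ (EE n)

/-- The projection `ℝⁿ → ℝⁿ/Γ`. -/
def pr (y : EE n) : QQ Γ := Quotient.mk _ y

omit hΓ in
theorem pr_surj : Function.Surjective (pr Γ) := Quotient.mk_surjective

omit hΓ in
theorem continuous_pr : Continuous (pr Γ) := continuous_quotient_mk'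

variable {Γ}

omit hΓ in
theorem pr_eq_iff {a b : EE n} : pr Γ a = pr Γ b ↔ ∃ γ ∈ Γ, γ a = b := by
  unfold pr
  rw [Quotient.eq'', MulAction.orbitRel_apply, MulAction.mem_orbit_iff]
  constructor
  · rintro ⟨γ, h⟩
    refine ⟨(γ : Equiv.Perm (EE n))⁻¹, Γ.inv_mem γ.2, ?_⟩
    rw [← h]
    change ((γ : Equiv.Perm (EE n))⁻¹) ((γ : Equiv.Perm (EE n)) b) = b
    simp
  · rintro ⟨γ, hγ, h⟩
    refine ⟨⟨γ⁻¹, Γ.inv_mem hγ⟩, ?_⟩
    change γ⁻¹ b = a
    rw [← h]; simp

omit hΓ in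
theorem pr_smul {γ : Equiv.Perm (EE n)} (hγ : γ ∈ Γ) (a : EE n) : pr Γ (γ a) = pr Γ a :=
  (pr_eq_iff.2 ⟨γ, hγ, rfl⟩).symm

/-- charts of the atlas are local inverses of the projection. -/
theorem atlas_symm {e : OpenPartialHomeomorph (QQ Γ) (EE n)} (he : e ∈ atlas (EE n) (QQ Γ))
    (y : EE n) : e.symm y = pr Γ y := by
  obtain ⟨q, rfl⟩ := he
  simp [pr, IsLocalHomeomorph.localInverseAt_symm]

theorem pr_chart {e : OpenPartialHomeomorph (QQ Γ) (EE n)} (he : e ∈ atlas (EE n) (QQ Γ))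
    {q : QQ Γ} (hq : q ∈ e.source) : pr Γ (e q) = q := by
  rw [← atlas_symm he, e.left_inv hq]

theorem chart_injOn {e : OpenPartialHomeomorph (QQ Γ) (EE n)} (he : e ∈ atlas (EE n) (QQ Γ))
    {a b : EE n} (ha : a ∈ e.target) (hb : b ∈ e.target) (h : pr Γ a = pr Γ b) : a = b := by
  rw [← e.right_inv ha, ← e.right_inv hb, atlas_symm he, atlas_symm he, h]

/-- two charts differ locally by an element of `Γ`. -/
theorem deck {e e' : OpenPartialHomeomorph (QQ Γ) (EE n)} (he : e ∈ atlas (EE n) (QQ Γ))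
    (he' : e' ∈ atlas (EE n) (QQ Γ)) {q : QQ Γ} (hq : q ∈ e.source) (hq' : q ∈ e'.source) :
    ∃ γ ∈ Γ, γ (e q) = e' q ∧ ∀ᶠ p in 𝓝 q, e' p = γ (e p) := by
  obtain ⟨γ, hγ, h⟩ := pr_eq_iff.1 ((pr_chart he hq).trans (pr_chart he' hq').symm)
  refine ⟨γ, hγ, h, ?_⟩
  have hc : ContinuousAt (fun p => γ (e p)) q :=
    ContinuousAt.comp (g := γ) (hΓ.smooth γ hγ).continuous.continuousAt (e.continuousAt hq)
  have h1 : ∀ᶠ p in 𝓝 q, γ (e p) ∈ e'.target := by
    apply hc.eventually_mem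
    rw [h]
    exact e'.open_target.mem_nhds (e'.map_source hq')
  filter_upwards [h1, e.open_source.mem_nhds hq, e'.open_source.mem_nhds hq'] with p hp1 hp2 hp3
  apply chart_injOn he' (e'.map_source hp3) hp1
  rw [pr_chart he' hp3, pr_smul hγ, pr_chart he hp2]

instance : IsManifold (𝓡 n) ∞ (QQ Γ) := by
  apply isManifold_of_contDiffOn
  intro e e' he he' y hy
  simp only [modelWithCornersSelf_coe, modelWithCornersSelf_coe_symm, Function.comp_id,
    Function.id_comp, preimage_id, range_id, inter_univ] at hy ⊢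
  obtain ⟨hy1, hy2⟩ : y ∈ e.target ∧ e.symm y ∈ e'.source := by
    simpa using hy
  obtain ⟨γ, hγ, h1, h2⟩ := deck he he' (e.map_target hy1) hy2
  have h3 : ∀ᶠ z in 𝓝 y, e' (e.symm z) = γ z := by
    have := (e.continuousAt_symm hy1).eventually h2
    filter_upwards [this, e.open_target.mem_nhds hy1] with z hz hz1
    rw [hz, e.right_inv hz1]
  apply ContDiffAt.contDiffWithinAt
  exact ((hΓ.smooth γ hγ).contDiffAt).congr_of_eventuallyEq (by
    filter_upwards [h3] with z hz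
    simpa using hz)

variable (Γ) in
omit hΓ in
theorem compact_of_cover {K : Set (EE n)} (hK : IsCompact K)
    (h : ∀ y : EE n, ∃ γ ∈ Γ, γ y ∈ K) : CompactSpace (QQ Γ) := by
  refine ⟨?_⟩
  have h1 : (univ : Set (QQ Γ)) = pr Γ '' K := by
    symm
    rw [eq_univ_iff_forall]
    intro q
    obtain ⟨y, rfl⟩ := pr_surj Γ q
    obtain ⟨γ, hγ, hy⟩ := h y
    exact ⟨γ y, hy, pr_smul hγ y⟩
  rw [h1]
  exact hK.image (continuous_pr Γ)

instance : SecondCountableTopology (QQ Γ) :=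
  ContinuousConstSMul.secondCountableTopology (Γ := Γ) (T := EE n)

instance : ConnectedSpace (QQ Γ) :=
  (pr_surj Γ).connectedSpace (continuous_pr Γ)

/-- in the chart at `q₀`, the extended chart is a local inverse of the projection. -/
theorem ext_symm (q₀ : QQ Γ) (y : EE n) : (extChartAt (𝓡 n) q₀).symm y = pr Γ y := by
  simp [extChartAt, atlas_symm (chart_mem_atlas (EE n) q₀)]

theorem ext_apply (q₀ q : QQ Γ) : extChartAt (𝓡 n) q₀ q = chartAt (EE n) q₀ q := by
  simp [extChartAt]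

/-- local form of the chart at `pr y` composed with the projection. -/
theorem chart_pr_local (y : EE n) : ∃ γ ∈ Γ, γ y = chartAt (EE n) (pr Γ y) (pr Γ y) ∧
    ∀ᶠ z in 𝓝 y, chartAt (EE n) (pr Γ y) (pr Γ z) = γ z := by
  set q := pr Γ y with hq
  have hs := mem_chart_source (EE n) q
  obtain ⟨γ, hγ, h⟩ := pr_eq_iff.1 (hq.symm.trans (pr_chart (chart_mem_atlas (EE n) q) hs).symm)
  refine ⟨γ, hγ, h, ?_⟩
  have hc : ContinuousAt γ y := (hΓ.smooth γ hγ).continuous.continuousAt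
  have h1 : ∀ᶠ z in 𝓝 y, γ z ∈ (chartAt (EE n) q).target := by
    apply hc.eventually_mem
    rw [h]
    exact (chartAt (EE n) q).open_target.mem_nhds (mem_chart_target _ q)
  have h2 : ∀ᶠ z in 𝓝 y, pr Γ z ∈ (chartAt (EE n) q).source := by
    apply (continuous_pr Γ).continuousAt.eventually_mem
    exact (chartAt (EE n) q).open_source.mem_nhds hs
  filter_upwards [h1, h2] with z hz1 hz2
  apply chart_injOn (chart_mem_atlas (EE n) q) ((chartAt (EE n) q).map_source hz2) hz1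
  rw [pr_chart (chart_mem_atlas (EE n) q) hz2, pr_smul hγ]

/-- the derivative of the projection in the charts. -/
theorem mfderiv_pr (y : EE n) : ∃ γ ∈ Γ, γ y = chartAt (EE n) (pr Γ y) (pr Γ y) ∧
    mfderiv 𝓘(ℝ, EE n) (𝓡 n) (pr Γ) y = fderiv ℝ γ y := by
  obtain ⟨γ, hγ, h1, h2⟩ := chart_pr_local (Γ := Γ) y
  refine ⟨γ, hγ, h1, ?_⟩
  have h4 : writtenInExtChartAt 𝓘(ℝ, EE n) (𝓡 n) y (pr Γ) =
      fun z => chartAt (EE n) (pr Γ y) (pr Γ z) := rfl
  have hm : HasMFDerivAt 𝓘(ℝ, EE n) (𝓡 n) (pr Γ) y (fderiv ℝ γ y) := by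
    refine ⟨(continuous_pr Γ).continuousAt, ?_⟩
    have h5 : HasFDerivAt (fun z => chartAt (EE n) (pr Γ y) (pr Γ z)) (fderiv ℝ γ y) y := by
      apply HasFDerivAt.congr_of_eventuallyEq (f := γ) _ h2
      exact ((hΓ.smooth γ hγ).differentiable (by simp)).differentiableAt.hasFDerivAt
    rw [h4]
    exact h5.hasFDerivWithinAt
  exact hm.mfderiv

end Pool.Agent.H660R3
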