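import Mathlib
import Pool.Agent.H660R3.Quot
import Pool.Agent.H660R3.LorDefs
set_option autoImplicit false
open Set Filter Topology
open scoped ContDiff Manifold

namespace Pool.Agent.H660R3

variable {n : ℕ} {Γ : Subgroup (Equiv.Perm (EE n))} [hΓ : DiscGroup Γ]

/-- the bilinear form on the quotient given by an invariant bilinear form on `ℝⁿ`. -/
noncomputable def descend (G : EE n → EE n → EE n → ℝ) (p : QQ Γ) : EE n → EE n → ℝ :=
  G (chartAt (EE n) p p)

theorem tanChange_eq (x₀ : QQ Γ) (y : EE n) : ∃ γ ∈ Γ, γ y = chartAt (EE n) (pr Γ y) (pr Γ y) ∧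
    ∀ u, tanChange x₀ (pr Γ y) y u = fderiv ℝ γ y u := by
  obtain ⟨γ, hγ, h1, h2⟩ := chart_pr_local (Γ := Γ) y
  refine ⟨γ, hγ, h1, fun u => ?_⟩
  unfold tanChange
  have h3 : (fun z => chartAt (EE n) (pr Γ y) ((chartAt (EE n) x₀).symm z)) =ᶠ[𝓝 y] γ := by
    filter_upwards [h2] with z hz
    rw [atlas_symm (chart_mem_atlas (EE n) x₀), hz]
  rw [h3.fderiv_eq]

theorem coordForm_descend (G : EE n → EE n → EE n → ℝ)
    (hG : ∀ γ ∈ Γ, ∀ y u v, G (γ y) (fderiv ℝ γ y u) (fderiv ℝ γ y v) = G y u v)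
    (x₀ : QQ Γ) (y u v : EE n) : coordForm (descend G) x₀ y u v = G y u v := by
  unfold coordForm
  simp only [atlas_symm (chart_mem_atlas (EE n) x₀)]
  obtain ⟨γ, hγ, h1, h2⟩ := tanChange_eq (Γ := Γ) x₀ y
  rw [h2, h2]
  unfold descend
  rw [← h1]
  exact hG γ hγ y u v

/-- descent of an invariant Lorentzian metric. -/
noncomputable def descendMetric (G : EE n → EE n → EE n → ℝ)
    (hG : ∀ γ ∈ Γ, ∀ y u v, G (γ y) (fderiv ℝ γ y u) (fderiv ℝ γ y v) = G y u v)
    (hsymm : ∀ y, IsSymBil (G y)) (hsig : ∀ y, HasLorSig (G y))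
    (hsm : ∀ u v, ContDiff ℝ ∞ (fun y => G y u v)) : LorentzMetric n (QQ Γ) where
  val := descend G
  symBil p := hsymm _
  signature p := hsig _
  smooth x₀ u v := by
    have : (fun y => coordForm (descend G) x₀ y u v) = fun y => G y u v :=
      funext fun y => coordForm_descend G hG x₀ y u v
    rw [this]
    exact (hsm u v).contDiffOn

/-- the curve `γ` in the chart at `γ t`. -/
noncomputable abbrev loc (γ : ℝ → QQ Γ) (t s : ℝ) : EE n := inChart γ t s

theorem loc_contDiffAt {γ : ℝ → QQ Γ} (hγ : ContMDiff 𝓘(ℝ, ℝ) (𝓡 n) ∞ γ) (t : ℝ) :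
    ContDiffAt ℝ ∞ (loc γ t) t := by
  have h := (contMDiffAt_iff.1 (hγ t)).2
  simp only [modelWithCornersSelf_coe, range_id, contDiffWithinAt_univ] at h
  exact h

/-- near `t`, the chart at `γ s` is related to the chart at `γ t` by an element of the group. -/
theorem loc_local {γ : ℝ → QQ Γ} (hγ : Continuous γ) (t : ℝ) :
    ∀ᶠ s in 𝓝 t, ∃ δ ∈ Γ, ∀ᶠ r in 𝓝 s, loc γ s r = δ (loc γ t r) := by
  have h1 : ∀ᶠ s in 𝓝 t, γ s ∈ (chartAt (EE n) (γ t)).source :=
    hγ.continuousAt.eventually_mem (chart_source_mem_nhds (EE n) (γ t))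
  filter_upwards [h1] with s hs
  obtain ⟨δ, hδ, -, h⟩ := deck (chart_mem_atlas (EE n) (γ t)) (chart_mem_atlas (EE n) (γ s)) hs
    (mem_chart_source (EE n) (γ s))
  exact ⟨δ, hδ, hγ.continuousAt.eventually h⟩

/-- at `t` itself the projection of the local coordinates is the curve. -/
theorem pr_loc {γ : ℝ → QQ Γ} (hγ : Continuous γ) (t : ℝ) :
    ∀ᶠ s in 𝓝 t, pr Γ (loc γ t s) = γ s := by
  have h1 : ∀ᶠ s in 𝓝 t, γ s ∈ (chartAt (EE n) (γ t)).source :=
    hγ.continuousAt.eventually_mem (chart_source_mem_nhds (EE n) (γ t))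
  filter_upwards [h1] with s hs
  exact pr_chart (chart_mem_atlas (EE n) (γ t)) hs

theorem isGeodesicAt_descend {G : EE n → EE n → EE n → ℝ} {hG hsymm hsig hsm}
    {γ : ℝ → QQ Γ} {t : ℝ} (h : IsGeodesicAt (descendMetric G hG hsymm hsig hsm) γ t) (w : EE n) :
    G (loc γ t t) (deriv (deriv (loc γ t)) t) w
      + fderiv ℝ (fun y => G y (deriv (loc γ t) t) w) (loc γ t t) (deriv (loc γ t) t)
      - (1 / 2) * fderiv ℝ (fun y => G y (deriv (loc γ t) t) (deriv (loc γ t) t)) (loc γ t t) w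
      = 0 := by
  have h2 := h w
  have h3 : coordForm (descendMetric G hG hsymm hsig hsm).val (γ t) = fun y u v => G y u v := by
    funext y u v
    exact coordForm_descend G hG (γ t) y u v
  rw [h3] at h2
  exact h2

end Pool.Agent.H660R3
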