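import Mathlib
import Pool.Agent.H660R3.QuotLor
import Pool.Agent.H660R3.LcsDefs
set_option autoImplicit false
set_option synthInstance.maxHeartbeats 400000
open Set Filter Topology
open scoped ContDiff Manifold

/-!
# The torus `ℝⁿ/ℤⁿ`
-/
namespace Pool.Agent.H660R3.Torus

variable {n : ℕ}

/-- integer vector -/
noncomputable def iv (m : Fin n → ℤ) : EE n := WithLp.toLp 2 (fun i => (m i : ℝ))

@[simp] theorem iv_apply (m : Fin n → ℤ) (i : Fin n) : iv m i = m i := rfl

/-- translation by an integer vector -/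
noncomputable def tr (m : Fin n → ℤ) : Equiv.Perm (EE n) := Equiv.addRight (iv m)

@[simp] theorem tr_apply (m : Fin n → ℤ) (v : EE n) : tr m v = v + iv m := rfl

theorem ext_coord {u v : EE n} (h : ∀ i, u i = v i) : u = v := by
  ext i; exact h i

variable (n) in
/-- the lattice `ℤⁿ` -/
noncomputable def Zn : Subgroup (Equiv.Perm (EE n)) where
  carrier := {f | ∃ m : Fin n → ℤ, f = tr m}
  one_mem' := ⟨0, Equiv.ext fun v => ext_coord fun i => by simp⟩
  mul_mem' := by
    rintro _ _ ⟨m, rfl⟩ ⟨m', rfl⟩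
    refine ⟨m' + m, Equiv.ext fun v => ?_⟩
    rw [Equiv.Perm.mul_apply]
    apply ext_coord
    intro i
    simp [add_assoc]
  inv_mem' := by
    rintro _ ⟨m, rfl⟩
    refine ⟨-m, Equiv.ext fun v => ?_⟩
    rw [Equiv.Perm.inv_eq_iff_eq]
    apply ext_coord
    intro i
    simp

theorem mem_Zn {f : Equiv.Perm (EE n)} : f ∈ Zn n ↔ ∃ m : Fin n → ℤ, f = tr m := Iff.rfl

theorem tr_fun (m : Fin n → ℤ) : (tr m : EE n → EE n) = fun v => v + iv m := rfl

theorem hasFDerivAt_tr (m : Fin n → ℤ) (v : EE n) :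
    HasFDerivAt (tr m) (ContinuousLinearMap.id ℝ (EE n)) v := by
  rw [tr_fun]
  exact (hasFDerivAt_id v).add_const _

instance : DiscGroup (Zn n) where
  smooth := by
    rintro _ ⟨m, rfl⟩
    rw [tr_fun]
    exact contDiff_id.add contDiff_const
  free := by
    rintro _ ⟨m, rfl⟩ x hx
    have hm : m = 0 := by
      funext i
      have := congrArg (fun v : EE n => v i) hx
      simp at this
      exact this
    subst hm
    exact Equiv.ext fun v => ext_coord fun i => by simp
  pd := by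
    intro K L hK hL
    obtain ⟨R1, hR1⟩ := hK.isBounded.exists_norm_le
    obtain ⟨R2, hR2⟩ := hL.isBounded.exists_norm_le
    obtain ⟨N, hN⟩ := exists_nat_ge (R1 + R2)
    have hfin : (Set.Icc (fun _ : Fin n => -(N : ℤ)) (fun _ => (N : ℤ))).Finite := Set.finite_Icc _ _
    refine Set.Finite.of_finite_image (f := fun γ : Zn n => (γ : Equiv.Perm (EE n))) ?_
      (Subtype.val_injective.injOn)
    refine (hfin.image (fun m => tr m)).subset ?_
    rintro _ ⟨⟨_, ⟨m, rfl⟩⟩, ⟨w, ⟨v, hv, rfl⟩, hw⟩, rfl⟩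
    refine ⟨m, ?_, rfl⟩
    have h1 : ∀ i, |(m i : ℝ)| ≤ N := by
      intro i
      have e1 : |v i| ≤ R1 := by
        refine le_trans ?_ (hR1 v hv)
        simpa using PiLp.norm_apply_le v i
      have e2 : |(tr m v) i| ≤ R2 := by
        refine le_trans ?_ (hR2 _ hw)
        simpa using PiLp.norm_apply_le (tr m v) i
      have e3 : (m i : ℝ) = (tr m v) i - v i := by simp
      rw [e3]
      refine (abs_sub _ _).trans ?_
      linarith
    constructor
    · intro i
      have := (abs_le.1 (h1 i)).1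
      exact_mod_cast this
    · intro i
      have := (abs_le.1 (h1 i)).2
      exact_mod_cast this

instance : CompactSpace (QQ (Zn n)) := by
  have hK : IsCompact ((WithLp.toLp 2 : (Fin n → ℝ) → EE n) '' (Set.pi univ fun _ => Icc (0:ℝ) 1)) :=
    (isCompact_univ_pi fun _ => isCompact_Icc).image (PiLp.continuous_toLp 2 _)
  apply compact_of_cover (Zn n) hK
  intro y
  refine ⟨tr (fun i => -⌊y i⌋), mem_Zn.2 ⟨_, rfl⟩, fun i => Int.fract (y i), ?_, ?_⟩
  · intro i _
    exact ⟨Int.fract_nonneg _, (Int.fract_lt_one _).le⟩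
  · apply ext_coord
    intro i
    simp [Int.fract, sub_eq_add_neg]

/-- descent of an invariant 1-form to the torus. -/
noncomputable def descendOne (b : EE n → EE n → ℝ)
    (hb : ∀ (m : Fin n → ℤ) y u, b (y + iv m) u = b y u) (hl : ∀ y, IsLinearMap ℝ (b y))
    (hs : ∀ u, ContDiff ℝ ∞ (fun y => b y u)) : OneForm n (QQ (Zn n)) where
  val p := b (chartAt (EE n) p p)
  linear p := hl _
  smooth x₀ u := by
    have : (fun y => coordOne (fun p : QQ (Zn n) => b (chartAt (EE n) p p)) x₀ y u) =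
        fun y => b y u := by
      funext y
      unfold coordOne
      simp only [atlas_symm (chart_mem_atlas (EE n) x₀)]
      obtain ⟨_, ⟨m, rfl⟩, h1, h2⟩ := tanChange_eq (Γ := Zn n) x₀ y
      rw [h2, (hasFDerivAt_tr m y).fderiv, ← h1, tr_apply, hb]
      simp
    rw [this]
    exact (hs u).contDiffOn

variable {b : EE n → EE n → ℝ} {hb : ∀ (m : Fin n → ℤ) y u, b (y + iv m) u = b y u}
  {hl : ∀ y, IsLinearMap ℝ (b y)} {hs : ∀ u, ContDiff ℝ ∞ (fun y => b y u)}

theorem descendOne_val (p : QQ (Zn n)) (u : EE n) :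
    (descendOne b hb hl hs).val p u = b (chartAt (EE n) p p) u := rfl

theorem coordOne_descend (x₀ : QQ (Zn n)) (y u : EE n) :
    coordOne (descendOne b hb hl hs).val x₀ y u = b y u := by
  unfold coordOne
  simp only [atlas_symm (chart_mem_atlas (EE n) x₀)]
  obtain ⟨_, ⟨m, rfl⟩, h1, h2⟩ := tanChange_eq (Γ := Zn n) x₀ y
  rw [h2, (hasFDerivAt_tr m y).fderiv, descendOne_val, ← h1, tr_apply, hb]
  simp

theorem descendOne_d (p : QQ (Zn n)) (u v : EE n) :
    (descendOne b hb hl hs).d p u v =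
      fderiv ℝ (fun y => b y v) (chartAt (EE n) p p) u -
      fderiv ℝ (fun y => b y u) (chartAt (EE n) p p) v := by
  unfold OneForm.d dirD
  simp only [coordOne_descend]

/-- near `t`, the velocity is the derivative in the chart at `t`, and invariant functions can be computed
in the chart at `t`. -/
theorem torus_local {γ : ℝ → QQ (Zn n)} (hγ : ContMDiff 𝓘(ℝ, ℝ) (𝓡 n) ∞ γ) (t : ℝ) :
    ∀ᶠ s in 𝓝 t, HasDerivAt (inChart (n := n) γ t) (velocity γ s) s ∧
      ∃ m : Fin n → ℤ, inChart (n := n) γ s s = inChart (n := n) γ t s + iv m := by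
  have hd : ∀ᶠ s in 𝓝 t, ContDiffAt ℝ 1 (loc γ t) s :=
    ((loc_contDiffAt hγ t).of_le (by simp)).eventually (by simp)
  filter_upwards [loc_local hγ.continuous t, hd] with s hs1 hs2
  obtain ⟨_, ⟨m, rfl⟩, h⟩ := hs1
  have hd : HasDerivAt (inChart γ t) (deriv (inChart γ t) s) s :=
    (hs2.differentiableAt (by simp)).hasDerivAt
  have h1 : velocity (n := n) γ s = deriv (inChart γ t) s := by
    have e1 : inChart γ s =ᶠ[𝓝 s] fun r => tr m (inChart γ t r) := h
    unfold velocity
    rw [e1.deriv_eq]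
    exact ((hasFDerivAt_tr m _).comp_hasDerivAt s hd).deriv
  rw [h1]
  exact ⟨hd, m, h.self_of_nhds⟩

/-- the derivative of an invariant function along a curve. -/
theorem hasDerivAt_inv {γ : ℝ → QQ (Zn n)} (hγ : ContMDiff 𝓘(ℝ, ℝ) (𝓡 n) ∞ γ) {X : Type*}
    [NormedAddCommGroup X] [NormedSpace ℝ X] {P : EE n → X}
    (hP : ∀ (m : Fin n → ℤ) y, P (y + iv m) = P y) (t : ℝ) {P' : EE n →L[ℝ] X}
    (hd : HasFDerivAt P P' (inChart γ t t)) :
    HasDerivAt (fun s => P (inChart γ s s)) (P' (velocity γ t)) t := by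
  have h1 := (torus_local hγ t)
  have h2 : (fun s => P (inChart γ s s)) =ᶠ[𝓝 t] fun s => P (inChart γ t s) := by
    filter_upwards [h1] with s hs
    obtain ⟨-, m, hm⟩ := hs
    rw [hm, hP]
  have h3 : HasDerivAt (inChart γ t) (velocity γ t) t := h1.self_of_nhds.1
  exact (hd.comp_hasDerivAt t h3).congr_of_eventuallyEq h2

theorem continuous_inv {γ : ℝ → QQ (Zn n)} (hγ : ContMDiff 𝓘(ℝ, ℝ) (𝓡 n) ∞ γ) {X : Type*}
    [TopologicalSpace X] {P : EE n → X}
    (hP : ∀ (m : Fin n → ℤ) y, P (y + iv m) = P y) (hc : Continuous P) :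
    Continuous (fun s => P (inChart γ s s)) := by
  rw [continuous_iff_continuousAt]
  intro t
  have h1 := (torus_local hγ t)
  have h2 : (fun s => P (inChart γ s s)) =ᶠ[𝓝 t] fun s => P (inChart γ t s) := by
    filter_upwards [h1] with s hs
    obtain ⟨-, m, hm⟩ := hs
    rw [hm, hP]
  rw [continuousAt_congr h2]
  exact hc.continuousAt.comp h1.self_of_nhds.1.continuousAt

theorem velocity_continuous {γ : ℝ → QQ (Zn n)} (hγ : ContMDiff 𝓘(ℝ, ℝ) (𝓡 n) ∞ γ) :
    Continuous (velocity γ : ℝ → EE n) := by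
  rw [continuous_iff_continuousAt]
  intro t
  have h1 := (torus_local hγ t)
  have h2 : (velocity γ : ℝ → EE n) =ᶠ[𝓝 t] deriv (inChart γ t) := by
    filter_upwards [h1] with s hs
    exact hs.1.deriv.symm
  rw [continuousAt_congr h2]
  have hc := loc_contDiffAt hγ t
  have h3 := hc.derivWithin (m := 0) (by simp)
  exact h3.continuousAt

theorem inChart_shift {γ : ℝ → QQ (Zn n)} {L : ℝ} (hL : ∀ t, γ (t + L) = γ t) (t s : ℝ) :
    inChart (n := n) γ (t + L) (s + L) = inChart γ t s := by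
  unfold inChart
  rw [hL, hL]

end Pool.Agent.H660R3.Torus
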