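import Mathlib
import Pool.Agent.H660R3.Torus
import Pool.Agent.H660R3.LcsFun
set_option autoImplicit false
set_option synthInstance.maxHeartbeats 400000
open Set Filter Topology
open scoped ContDiff Manifold

/-!
# The exact lcs structure on the 4-torus
-/
namespace Pool.Agent.H660R3.LcsEx

open Torus Stair Real

/-- coordinate functional. -/
noncomputable def pj (i : Fin 4) : EE 4 →L[ℝ] ℝ := EuclideanSpace.proj i

@[simp] theorem pj_apply (i : Fin 4) (v : EE 4) : pj i v = v i := rfl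

noncomputable def bb : Fin 4 → ℝ := ![0, 0, 1 / 4, 1 / 4]
noncomputable def aa : Fin 4 → ℝ := ![0, 1 / 2, 0, 1 / 2]
def jj : Fin 4 → Fin 4 := ![0, 0, 1, 1]

/-- first factor of the partition of unity -/
noncomputable def fA (i : Fin 4) (q : EE 4) : ℝ := cos (2 * π * (q 2 - bb i))
/-- second factor of the partition of unity -/
noncomputable def fB (i : Fin 4) (q : EE 4) : ℝ := cos (π * (q (jj i) - aa i))

/-- the function `F`. -/
noncomputable def FF (q : EE 4) : ℝ := ∑ i : Fin 4, fA i q ^ 2 * fB i q ^ 2 * hs (q 3 - (i : ℕ) / 4)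

theorem sum_AB (q : EE 4) : ∑ i : Fin 4, fA i q ^ 2 * fB i q ^ 2 = 1 := by
  have h1 : cos (2 * π * (q 2 - 1 / 4)) = sin (2 * π * q 2) := by
    rw [← cos_sub_pi_div_two]; ring_nf
  have h2 : ∀ x : ℝ, cos (π * (x - 1 / 2)) = sin (π * x) := by
    intro x; rw [← cos_sub_pi_div_two]; ring_nf
  simp only [Fin.sum_univ_four, fA, fB, bb, aa, jj]
  simp only [Matrix.cons_val_zero, Matrix.cons_val_one, Matrix.cons_val]
  rw [h1, h2, h2, sub_zero, sub_zero, sub_zero]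
  have e1 := sin_sq_add_cos_sq (2 * π * q 2)
  have e2 := sin_sq_add_cos_sq (π * q 0)
  have e3 := sin_sq_add_cos_sq (π * q 1)
  linear_combination (cos (2 * π * q 2)) ^ 2 * e2 + (sin (2 * π * q 2)) ^ 2 * e3 + e1

theorem fA_per (i : Fin 4) (m : Fin 4 → ℤ) (q : EE 4) : fA i (q + iv m) = fA i q := by
  unfold fA
  have : 2 * π * ((q + iv m) 2 - bb i) = 2 * π * (q 2 - bb i) + m 2 * (2 * π) := by
    simp; ring
  rw [this, cos_add_int_mul_two_pi]

theorem fB_per (i : Fin 4) (m : Fin 4 → ℤ) (q : EE 4) : fB i (q + iv m) ^ 2 = fB i q ^ 2 := by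
  unfold fB
  have : π * ((q + iv m) (jj i) - aa i) = π * (q (jj i) - aa i) + m (jj i) * π := by
    simp; ring
  rw [this, cos_add_int_mul_pi, mul_pow, ← zpow_natCast, ← zpow_mul, mul_comm (m (jj i)), zpow_mul]
  norm_num

theorem hs_per (i : Fin 4) (m : Fin 4 → ℤ) (q : EE 4) :
    hs ((q + iv m) 3 - (i : ℕ) / 4) = hs (q 3 - (i : ℕ) / 4) := by
  have : (q + iv m) 3 - (i : ℕ) / 4 = (q 3 - (i : ℕ) / 4) + m 3 := by
    simp; ring
  rw [this, hs_add_int]

theorem ee_per (i : Fin 4) (m : Fin 4 → ℤ) (q : EE 4) :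
    ee ((q + iv m) 3 - (i : ℕ) / 4) = ee (q 3 - (i : ℕ) / 4) := by
  have : (q + iv m) 3 - (i : ℕ) / 4 = (q 3 - (i : ℕ) / 4) + m 3 := by
    simp; ring
  rw [this, ee_add_int]

theorem FF_per (m : Fin 4 → ℤ) (q : EE 4) : FF (q + iv m) = FF q := by
  unfold FF
  refine Finset.sum_congr rfl fun i _ => ?_
  rw [fA_per, fB_per, hs_per]

/-- the differential of `F`. -/
noncomputable def dF (q u : EE 4) : ℝ := ∑ i : Fin 4,
  ((-(2 * (2 * π) * (fA i q * sin (2 * π * (q 2 - bb i)))) * u 2) * (fB i q ^ 2 * hs (q 3 - (i : ℕ) / 4))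
  + (-(2 * π * (fB i q * sin (π * (q (jj i) - aa i)))) * u (jj i)) * (fA i q ^ 2 * hs (q 3 - (i : ℕ) / 4))
  + (fA i q ^ 2 * fB i q ^ 2) * ((1 - ee (q 3 - (i : ℕ) / 4)) * u 3))

theorem FF_hasFDerivAt (q : EE 4) : ∃ D : EE 4 →L[ℝ] ℝ, HasFDerivAt FF D q ∧ ∀ u, D u = dF q u := by
  have hA : ∀ i, HasFDerivAt (fA i) ((-sin (2 * π * (q 2 - bb i))) • ((2 * π) • pj 2)) q := by
    intro i
    have h := (((pj 2).hasFDerivAt (x := q)).sub_const (bb i)).const_mul (2 * π)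
    exact h.cos
  have hB : ∀ i, HasFDerivAt (fB i) ((-sin (π * (q (jj i) - aa i))) • (π • pj (jj i))) q := by
    intro i
    have h := (((pj (jj i)).hasFDerivAt (x := q)).sub_const (aa i)).const_mul π
    exact h.cos
  have hC : ∀ i : Fin 4, HasFDerivAt (fun q : EE 4 => hs (q 3 - (i : ℕ) / 4))
      ((1 - ee (q 3 - (i : ℕ) / 4)) • pj 3) q := by
    intro i
    have h := ((pj 3).hasFDerivAt (x := q)).sub_const ((i : ℕ) / 4 : ℝ)
    exact (hasDerivAt_hs _).comp_hasFDerivAt q h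
  have hT : ∀ i : Fin 4, HasFDerivAt (fun q => fA i q ^ 2 * fB i q ^ 2 * hs (q 3 - (i : ℕ) / 4)) _ q :=
    fun i => (((hA i).pow 2).mul ((hB i).pow 2)).mul (hC i)
  refine ⟨_, HasFDerivAt.fun_sum (u := Finset.univ) fun i _ => hT i, fun u => ?_⟩
  simp only [FunLike.coe_sum, Finset.sum_apply, dF]
  refine Finset.sum_congr rfl fun i _ => ?_
  simp
  ring

theorem FF_fderiv (q u : EE 4) : fderiv ℝ FF q u = dF q u := by
  obtain ⟨D, h1, h2⟩ := FF_hasFDerivAt q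
  rw [h1.fderiv, h2]

theorem FF_smooth : ContDiff ℝ ∞ FF := by
  unfold FF
  apply ContDiff.sum
  intro i _
  have h0 : ContDiff ℝ ∞ (fun q : EE 4 => hs (q 3 - (i : ℕ) / 4)) := by
    apply hs_smooth.comp
    exact (pj 3).contDiff.sub contDiff_const
  have h1 : ContDiff ℝ ∞ (fA i) := by
    unfold fA
    exact (contDiff_const.mul ((pj 2).contDiff.sub contDiff_const)).cos
  have h2 : ContDiff ℝ ∞ (fB i) := by
    unfold fB
    exact (contDiff_const.mul ((pj (jj i)).contDiff.sub contDiff_const)).cos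
  exact ((h1.pow 2).mul (h2.pow 2)).mul h0

/-- standard basis vector -/
noncomputable def e3 : EE 4 := !₂[0, 0, 0, 1]
noncomputable def e2 : EE 4 := !₂[0, 0, 1, 0]

theorem jj_ne (i : Fin 4) : jj i ≠ 2 ∧ jj i ≠ 3 := by fin_cases i <;> simp [jj]

theorem dF_e3 (q : EE 4) : dF q e3 = 1 - ∑ i : Fin 4, fA i q ^ 2 * fB i q ^ 2 * ee (q 3 - (i : ℕ) / 4) := by
  rw [← sum_AB q, ← Finset.sum_sub_distrib, dF]
  refine Finset.sum_congr rfl fun i _ => ?_
  have h1 : e3 (jj i) = 0 := by fin_cases i <;> simp [jj, e3]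
  have h2 : e3 2 = 0 := by simp [e3]
  have h3 : e3 3 = 1 := by simp [e3]
  rw [h1, h2, h3]
  ring

theorem abs_fA (i : Fin 4) (q : EE 4) : |fA i q| ≤ 1 := abs_cos_le_one _
theorem abs_fB (i : Fin 4) (q : EE 4) : |fB i q| ≤ 1 := abs_cos_le_one _
theorem sq_fA (i : Fin 4) (q : EE 4) : fA i q ^ 2 ≤ 1 := cos_sq_le_one _
theorem sq_fB (i : Fin 4) (q : EE 4) : fB i q ^ 2 ≤ 1 := cos_sq_le_one _

theorem dF_e3_bound {K : ℝ} (hK : ∀ t, |ee t| ≤ K) (q : EE 4) : |dF q e3| ≤ 1 + K := by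
  rw [dF_e3]
  have h1 : |∑ i : Fin 4, fA i q ^ 2 * fB i q ^ 2 * ee (q 3 - (i : ℕ) / 4)| ≤ K := by
    refine (Finset.abs_sum_le_sum_abs _ _).trans ?_
    have h2 : ∀ i ∈ (Finset.univ : Finset (Fin 4)),
        |fA i q ^ 2 * fB i q ^ 2 * ee (q 3 - (i : ℕ) / 4)| ≤ fA i q ^ 2 * fB i q ^ 2 * K := by
      intro i _
      rw [abs_mul, abs_of_nonneg (by positivity : 0 ≤ fA i q ^ 2 * fB i q ^ 2)]
      exact mul_le_mul_of_nonneg_left (hK _) (by positivity)
    refine (Finset.sum_le_sum h2).trans ?_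
    rw [← Finset.sum_mul, sum_AB, one_mul]
  refine (abs_sub _ _).trans ?_
  simpa using h1

theorem dF_e2_bound (q : EE 4) : |dF q e2| ≤ 16 * π := by
  have h2 : e2 2 = 1 := by simp [e2]
  have h3 : e2 3 = 0 := by simp [e2]
  have hj : ∀ i, e2 (jj i) = 0 := by intro i; fin_cases i <;> simp [jj, e2]
  have h : dF q e2 = ∑ i : Fin 4, (-(2 * (2 * π) * (fA i q * sin (2 * π * (q 2 - bb i)))) * 1) *
      (fB i q ^ 2 * hs (q 3 - (i : ℕ) / 4)) := by
    unfold dF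
    refine Finset.sum_congr rfl fun i _ => ?_
    rw [h2, h3, hj]; ring
  rw [h]
  refine (Finset.abs_sum_le_sum_abs _ _).trans ?_
  have hb : ∀ i ∈ (Finset.univ : Finset (Fin 4)),
      |(-(2 * (2 * π) * (fA i q * sin (2 * π * (q 2 - bb i)))) * 1) *
      (fB i q ^ 2 * hs (q 3 - (i : ℕ) / 4))| ≤ 4 * π := by
    intro i _
    have a1 := abs_fA i q
    have a2 := abs_sin_le_one (2 * π * (q 2 - bb i))
    have a3 := sq_fB i q
    have a4 := hs_bound (q 3 - (i : ℕ) / 4)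
    have hpi := pi_pos
    rw [mul_one, abs_mul, abs_neg, abs_mul, abs_mul (fA i q), abs_mul (fB i q ^ 2),
      abs_of_pos (by positivity : 0 < 2 * (2 * π)), abs_of_nonneg (sq_nonneg (fB i q))]
    have b1 : |fA i q| * |sin (2 * π * (q 2 - bb i))| ≤ 1 * 1 :=
      mul_le_mul a1 a2 (abs_nonneg _) zero_le_one
    have b2 : fB i q ^ 2 * |hs (q 3 - (i : ℕ) / 4)| ≤ 1 * 1 :=
      mul_le_mul a3 a4 (abs_nonneg _) zero_le_one
    have b3 : 2 * (2 * π) * (|fA i q| * |sin (2 * π * (q 2 - bb i))|) ≤ 2 * (2 * π) * (1 * 1) :=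
      mul_le_mul_of_nonneg_left b1 (by positivity)
    have b4 := mul_le_mul b3 b2 (by positivity) (by positivity : (0:ℝ) ≤ 2 * (2 * π) * (1 * 1))
    linarith
  refine (Finset.sum_le_sum hb).trans ?_
  simp
  linarith [pi_pos]

end Pool.Agent.H660R3.LcsEx
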