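import Mathlib
import Pool.Agent.H660R3.LcsEx
set_option autoImplicit false
set_option synthInstance.maxHeartbeats 400000
open Set Filter Topology
open scoped ContDiff Manifold

/-!
# The exact lcs structure on the 4-torus has no Reeb curve
-/
namespace Pool.Agent.H660R3.LcsEx

open Torus Stair Real

/-- `λ = e^{εF} (cos(2πz) dx + sin(2πz) dy)` -/
noncomputable def bl (ε : ℝ) (q u : EE 4) : ℝ :=
  exp (ε * FF q) * (cos (2 * π * q 2) * u 0 + sin (2 * π * q 2) * u 1)

/-- `α = dθ` -/
noncomputable def al (_q u : EE 4) : ℝ := u 3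

theorem bl_per (ε : ℝ) (m : Fin 4 → ℤ) (q u : EE 4) : bl ε (q + iv m) u = bl ε q u := by
  unfold bl
  have : 2 * π * (q + iv m) 2 = 2 * π * q 2 + m 2 * (2 * π) := by simp; ring
  rw [FF_per, this, cos_add_int_mul_two_pi, sin_add_int_mul_two_pi]

theorem bl_lin (ε : ℝ) (q : EE 4) : IsLinearMap ℝ (bl ε q) where
  map_add u v := by simp only [bl, PiLp.add_apply]; ring
  map_smul c u := by simp only [bl, PiLp.smul_apply, smul_eq_mul]; ring

theorem bl_fderiv (ε : ℝ) (q u v : EE 4) : fderiv ℝ (fun y => bl ε y v) q u =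
    exp (ε * FF q) * (ε * dF q u * (cos (2 * π * q 2) * v 0 + sin (2 * π * q 2) * v 1)
      + 2 * π * u 2 * (-sin (2 * π * q 2) * v 0 + cos (2 * π * q 2) * v 1)) := by
  obtain ⟨D, hD, hD2⟩ := FF_hasFDerivAt q
  have h1 : HasFDerivAt (fun y => exp (ε * FF y)) (exp (ε * FF q) • (ε • D)) q :=
    (hD.const_mul ε).exp
  have hz : HasFDerivAt (fun y : EE 4 => 2 * π * y 2) ((2 * π) • pj 2) q :=
    ((pj 2).hasFDerivAt (x := q)).const_mul (2 * π)
  have h2 : HasFDerivAt (fun y : EE 4 => cos (2 * π * y 2)) _ q := hz.cos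
  have h3 : HasFDerivAt (fun y : EE 4 => sin (2 * π * y 2)) _ q := hz.sin
  have h4 : HasFDerivAt (fun y => bl ε y v) _ q :=
    h1.mul ((h2.mul_const (v 0)).add (h3.mul_const (v 1)))
  rw [h4.fderiv]
  simp [hD2]
  ring

theorem bl_smooth (ε : ℝ) (u : EE 4) : ContDiff ℝ ∞ (fun y => bl ε y u) := by
  unfold bl
  have h1 : ContDiff ℝ ∞ (fun y : EE 4 => 2 * π * y 2) := contDiff_const.mul (pj 2).contDiff
  exact ((contDiff_const.mul FF_smooth).exp).mul
    ((h1.cos.mul contDiff_const).add (h1.sin.mul contDiff_const))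

theorem al_per (m : Fin 4 → ℤ) (q u : EE 4) : al (q + iv m) u = al q u := rfl

theorem al_lin (q : EE 4) : IsLinearMap ℝ (al q) where
  map_add u v := by simp only [al, PiLp.add_apply]
  map_smul c u := by simp only [al, PiLp.smul_apply, smul_eq_mul]

theorem al_smooth (u : EE 4) : ContDiff ℝ ∞ (fun y => al y u) := contDiff_const

/-- the form `λ` on the torus. -/
noncomputable def lam (ε : ℝ) : OneForm 4 (QQ (Zn 4)) :=
  descendOne (bl ε) (bl_per ε) (bl_lin ε) (bl_smooth ε)

/-- the form `α` on the torus. -/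
noncomputable def alp : OneForm 4 (QQ (Zn 4)) :=
  descendOne al al_per al_lin al_smooth

theorem lam_d (ε : ℝ) (p : QQ (Zn 4)) (u v : EE 4) : (lam ε).d p u v =
    let q := chartAt (EE 4) p p
    exp (ε * FF q) * (ε * dF q u * (cos (2 * π * q 2) * v 0 + sin (2 * π * q 2) * v 1)
      + 2 * π * u 2 * (-sin (2 * π * q 2) * v 0 + cos (2 * π * q 2) * v 1)) -
    exp (ε * FF q) * (ε * dF q v * (cos (2 * π * q 2) * u 0 + sin (2 * π * q 2) * u 1)
      + 2 * π * v 2 * (-sin (2 * π * q 2) * u 0 + cos (2 * π * q 2) * u 1)) := by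
  unfold lam
  rw [descendOne_d, bl_fderiv, bl_fderiv]

theorem alp_d (p : QQ (Zn 4)) (u v : EE 4) : alp.d p u v = 0 := by
  unfold alp
  rw [descendOne_d]
  simp [al]

theorem ext4 {u v : EE 4} (h0 : u 0 = v 0) (h1 : u 1 = v 1) (h2 : u 2 = v 2) (h3 : u 3 = v 3) :
    u = v := by
  ext i
  fin_cases i
  · exact h0
  · exact h1
  · exact h2
  · exact h3

theorem dF_lin (q : EE 4) {u : EE 4} (h0 : u 0 = 0) (h1 : u 1 = 0) (h2 : u 2 = 0) :
    dF q u = dF q e3 * u 3 := by
  obtain ⟨D, h1', h2'⟩ := FF_hasFDerivAt q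
  rw [← h2', ← h2']
  have : u = u 3 • e3 := by
    apply ext4 <;> simp [e3, h0, h1, h2]
  conv_lhs => rw [this]
  rw [map_smul, smul_eq_mul, mul_comm]

theorem isExactLcs {ε K : ℝ} (hε : 0 < ε) (hK : ∀ t, |ee t| ≤ K) (hεK : ε * (1 + K) < 1) :
    IsExactLcs (lam ε) alp where
  closed := alp_d
  nondeg p u h := by
    set q := chartAt (EE 4) p p with hq
    set c := cos (2 * π * q 2) with hc
    set s := sin (2 * π * q 2) with hs
    have hcs : s ^ 2 + c ^ 2 = 1 := sin_sq_add_cos_sq _
    have hE : 0 < exp (ε * FF q) := exp_pos _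
    have hpi := pi_pos
    have hG : |dF q e3| ≤ 1 + K := dF_e3_bound hK q
    have hG1 : 1 - ε * dF q e3 ≠ 0 := by
      have : ε * dF q e3 < 1 := lt_of_le_of_lt
        (mul_le_mul_of_nonneg_left ((le_abs_self _).trans hG) hε.le) hεK
      linarith
    have key : ∀ v : EE 4, (ε * dF q u * (c * v 0 + s * v 1) + 2 * π * u 2 * (-s * v 0 + c * v 1)) -
        (ε * dF q v * (c * u 0 + s * u 1) + 2 * π * v 2 * (-s * u 0 + c * u 1)) -
        (u 3 * (c * v 0 + s * v 1) - v 3 * (c * u 0 + s * u 1)) = 0 := by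
      intro v
      have h1 := h v
      unfold lcsForm at h1
      rw [lam_d] at h1
      have ha : ∀ w : EE 4, alp.val p w = w 3 := fun w => rfl
      have hl : ∀ w : EE 4, (lam ε).val p w = exp (ε * FF q) * (c * w 0 + s * w 1) := fun w => rfl
      rw [ha, ha, hl, hl] at h1
      simp only [← hq, ← hc, ← hs] at h1
      have h2 : exp (ε * FF q) * ((ε * dF q u * (c * v 0 + s * v 1) + 2 * π * u 2 * (-s * v 0 + c * v 1)) -
        (ε * dF q v * (c * u 0 + s * u 1) + 2 * π * v 2 * (-s * u 0 + c * u 1)) -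
        (u 3 * (c * v 0 + s * v 1) - v 3 * (c * u 0 + s * u 1))) = 0 := by
        linear_combination h1
      rcases mul_eq_zero.1 h2 with h3 | h3
      · exact absurd h3 hE.ne'
      · exact h3
    -- w = e3
    have k3 := key e3
    have hl0 : c * u 0 + s * u 1 = 0 := by
      have e30 : e3 0 = 0 := by simp [e3]
      have e31 : e3 1 = 0 := by simp [e3]
      have e32 : e3 2 = 0 := by simp [e3]
      have e33 : e3 3 = 1 := by simp [e3]
      rw [e30, e31, e32, e33] at k3
      have : (1 - ε * dF q e3) * (c * u 0 + s * u 1) = 0 := by linear_combination k3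
      rcases mul_eq_zero.1 this with h3 | h3
      · exact absurd h3 hG1
      · exact h3
    have k2 := key e2
    have hb0 : -s * u 0 + c * u 1 = 0 := by
      have e20 : e2 0 = 0 := by simp [e2]
      have e21 : e2 1 = 0 := by simp [e2]
      have e22 : e2 2 = 1 := by simp [e2]
      have e23 : e2 3 = 0 := by simp [e2]
      rw [e20, e21, e22, e23, hl0] at k2
      have : 2 * π * (-s * u 0 + c * u 1) = 0 := by linear_combination -k2
      rcases mul_eq_zero.1 this with h3 | h3
      · exact absurd h3 (by positivity)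
      · exact h3
    have hu0 : u 0 = 0 := by linear_combination c * hl0 - s * hb0 - u 0 * hcs
    have hu1 : u 1 = 0 := by linear_combination s * hl0 + c * hb0 - u 1 * hcs
    have ka := key !₂[-s, c, 0, 0]
    have hu2 : u 2 = 0 := by
      simp [hu0, hu1] at ka
      have : 2 * π * u 2 = 0 := by
        linear_combination ka - (2 * π * u 2) * hcs
      rcases mul_eq_zero.1 this with h3 | h3
      · exact absurd h3 (by positivity)
      · exact h3
    have kb := key !₂[c, s, 0, 0]
    have hu3 : u 3 = 0 := by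
      have hd := dF_lin q hu0 hu1 hu2
      simp [hu0, hu1, hu2] at kb
      rw [hd] at kb
      have : (1 - ε * dF q e3) * u 3 = 0 := by
        linear_combination (-1) * kb + (ε * (dF q e3 * u 3) - u 3) * hcs
      rcases mul_eq_zero.1 this with h3 | h3
      · exact absurd h3 hG1
      · exact h3
    exact ext4 hu0 hu1 hu2 hu3

theorem alp_rational : IsRationalForm alp := by
  intro c hc hper
  set a : ℝ → ℝ := fun t => (velocity c t : EE 4) 3 with ha
  have hac : Continuous a := (pj 3).continuous.comp (velocity_continuous hc)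
  set P : EE 4 → ℂ := fun q => Complex.exp ((2 * π * q 3 : ℝ) * Complex.I) with hP
  have hPper : ∀ (m : Fin 4 → ℤ) y, P (y + iv m) = P y := by
    intro m y
    simp only [hP]
    rw [Complex.exp_eq_exp_iff_exists_int]
    refine ⟨m 3, ?_⟩
    simp
    ring
  have hPd : ∀ q : EE 4, HasFDerivAt P (((P q) * ((2 * π : ℝ) * Complex.I)) •
      (Complex.ofRealCLM ∘L (pj 3))) q := by
    intro q
    have h1 : HasFDerivAt (fun q : EE 4 => ((2 * π * q 3 : ℝ) : ℂ))
        (Complex.ofRealCLM ∘L ((2 * π) • pj 3)) q :=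
      Complex.ofRealCLM.hasFDerivAt.comp q (((pj 3).hasFDerivAt (x := q)).const_mul (2 * π))
    have h2 := (h1.mul_const Complex.I).cexp
    refine h2.congr_fderiv ?_
    ext u
    simp [hP]
    ring
  set g : ℝ → ℂ := fun t => P (inChart c t t) with hg
  have hgd : ∀ t, HasDerivAt g (g t * ((2 * π : ℝ) * Complex.I) * (a t : ℂ)) t := by
    intro t
    have := hasDerivAt_inv hc hPper t (hPd (inChart c t t))
    simpa using this
  set A : ℝ → ℝ := fun t => ∫ s in (0:ℝ)..t, a s with hA
  have hAd : ∀ t, HasDerivAt A (a t) t := fun t =>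
    intervalIntegral.integral_hasDerivAt_right (hac.intervalIntegrable _ _)
      (hac.stronglyMeasurableAtFilter _ _) hac.continuousAt
  set G : ℝ → ℂ := fun t => g t * Complex.exp (-((2 * π : ℝ) * Complex.I) * (A t : ℂ)) with hG
  have hGd : ∀ t, HasDerivAt G 0 t := by
    intro t
    have h1 : HasDerivAt (fun t => ((A t : ℝ) : ℂ)) ((a t : ℝ) : ℂ) t := (hAd t).ofReal_comp
    have h2 := (hgd t).mul ((h1.const_mul (-((2 * π : ℝ) * Complex.I))).cexp)
    refine h2.congr_deriv ?_
    ring
  have hGc : G 1 = G 0 := is_const_of_deriv_eq_zero (fun t => (hGd t).differentiableAt)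
    (fun t => (hGd t).deriv) 1 0
  have hg1 : g 1 = g 0 := by
    have h1 := inChart_shift (n := 4) hper 0 0
    have : g (0 + 1) = g 0 := by
      simp only [hg]; rw [h1]
    simpa using this
  have hg0 : g 0 ≠ 0 := Complex.exp_ne_zero _
  have hA0 : A 0 = 0 := by simp [hA]
  have h1 : Complex.exp (-((2 * π : ℝ) * Complex.I) * (A 1 : ℂ)) = 1 := by
    simp only [hG, hg1, hA0] at hGc
    have := mul_left_cancel₀ hg0 hGc
    simpa using this
  rw [Complex.exp_eq_one_iff] at h1
  obtain ⟨n, hn⟩ := h1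
  refine ⟨((-n : ℤ) : ℚ), ?_⟩
  have h2 : (A 1 : ℂ) = -(n : ℂ) := by
    have hpi : (π : ℂ) ≠ 0 := by exact_mod_cast pi_pos.ne'
    have h3 : (2 * (π : ℂ) * Complex.I) * ((A 1 : ℂ) + n) = 0 := by
      push_cast at hn
      linear_combination -hn
    rcases mul_eq_zero.1 h3 with h4 | h4
    · exfalso
      have := Complex.two_pi_I_ne_zero
      exact this h4
    · linear_combination h4
  have h3 : A 1 = -(n : ℝ) := by exact_mod_cast h2
  change A 1 = _
  rw [h3]
  push_cast
  ring

end Pool.Agent.H660R3.LcsEx
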