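import Mathlib
import Pool.Agent.H660R3.LcsMain
set_option autoImplicit false
set_option synthInstance.maxHeartbeats 400000
open Set Filter Topology
open scoped ContDiff Manifold

/-!
# No Reeb curve
-/
namespace Pool.Agent.H660R3.LcsEx

open Torus Stair Real

/-- pointwise consequences of the Reeb condition. -/
theorem reeb_point {ε : ℝ} (hε : 0 < ε) {o : ℝ → QQ (Zn 4)} (h : IsReebCurve (lam ε) o) (t : ℝ) :
    let q : EE 4 := inChart o t t
    let u : EE 4 := velocity o t
    dF q e3 = 0 ∧ ∃ l : ℝ, 0 < l ∧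
      u 0 = l * (cos (2 * π * q 2) + sin (2 * π * q 2) * (ε * dF q e2 / (2 * π))) ∧
      u 1 = l * (sin (2 * π * q 2) - cos (2 * π * q 2) * (ε * dF q e2 / (2 * π))) := by
  intro q u
  have hpi := pi_pos
  set c := cos (2 * π * q 2) with hc
  set s := sin (2 * π * q 2) with hs
  have hcs : s ^ 2 + c ^ 2 = 1 := sin_sq_add_cos_sq _
  have hE : 0 < exp (ε * FF q) := exp_pos _
  have hpos : 0 < exp (ε * FF q) * (c * u 0 + s * u 1) := h.pos t
  have hl : 0 < c * u 0 + s * u 1 := (mul_pos_iff_of_pos_left hE).1 hpos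
  have key : ∀ v : EE 4, (ε * dF q u * (c * v 0 + s * v 1) + 2 * π * u 2 * (-s * v 0 + c * v 1)) -
        (ε * dF q v * (c * u 0 + s * u 1) + 2 * π * v 2 * (-s * u 0 + c * u 1)) = 0 := by
    intro v
    have h1 := h.kernel t v
    rw [lam_d] at h1
    have h2 : exp (ε * FF q) * ((ε * dF q u * (c * v 0 + s * v 1) +
        2 * π * u 2 * (-s * v 0 + c * v 1)) -
        (ε * dF q v * (c * u 0 + s * u 1) + 2 * π * v 2 * (-s * u 0 + c * u 1))) = 0 := by
      rw [mul_sub]; exact h1
    rcases mul_eq_zero.1 h2 with h3 | h3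
    · exact absurd h3 hE.ne'
    · exact h3
  have k3 := key e3
  have k2 := key e2
  have e30 : e3 0 = 0 := by simp [e3]
  have e31 : e3 1 = 0 := by simp [e3]
  have e32 : e3 2 = 0 := by simp [e3]
  have e20 : e2 0 = 0 := by simp [e2]
  have e21 : e2 1 = 0 := by simp [e2]
  have e22 : e2 2 = 1 := by simp [e2]
  rw [e30, e31, e32] at k3
  rw [e20, e21, e22] at k2
  refine ⟨?_, c * u 0 + s * u 1, hl, ?_, ?_⟩
  · have : ε * (c * u 0 + s * u 1) * dF q e3 = 0 := by linear_combination -k3
    rcases mul_eq_zero.1 this with h3 | h3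
    · exact absurd h3 (by positivity)
    · exact h3
  · have hb : -s * u 0 + c * u 1 = -(ε * dF q e2 / (2 * π)) * (c * u 0 + s * u 1) := by
      field_simp
      linear_combination -k2
    linear_combination -s * hb - u 0 * hcs
  · have hb : -s * u 0 + c * u 1 = -(ε * dF q e2 / (2 * π)) * (c * u 0 + s * u 1) := by
      field_simp
      linear_combination -k2
    linear_combination c * hb - u 1 * hcs

/-- the `i`-th term -/
noncomputable def term (i : Fin 4) (q : EE 4) : ℝ :=
  fA i q ^ 2 * fB i q ^ 2 * ee (q 3 - (i : ℕ) / 4)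

theorem term_per (i : Fin 4) (m : Fin 4 → ℤ) (q : EE 4) : term i (q + iv m) = term i q := by
  unfold term
  rw [fA_per, fB_per, ee_per]

theorem term_cont (i : Fin 4) : Continuous (term i) := by
  unfold term fA fB
  have h1 : Continuous fun q : EE 4 => q 2 := (pj 2).continuous
  have h2 : Continuous fun q : EE 4 => q (jj i) := (pj (jj i)).continuous
  have h3 : Continuous fun q : EE 4 => q 3 := (pj 3).continuous
  have h4 : Continuous fun q : EE 4 => ee (q 3 - (i : ℕ) / 4) :=
    ee_continuous.comp (h3.sub continuous_const)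
  fun_prop

theorem term_disj (q : EE 4) (i j : Fin 4) (hij : i ≠ j) : term i q = 0 ∨ term j q = 0 := by
  by_contra hcon
  rw [not_or] at hcon
  apply hij
  apply ee_disjoint (q 3)
  · intro h; apply hcon.1; simp [term, h]
  · intro h; apply hcon.2; simp [term, h]

theorem term_01 {q : EE 4} (hq : dF q e3 = 0) (i : Fin 4) : term i q = 0 ∨ term i q = 1 := by
  by_cases h : term i q = 0
  · exact Or.inl h
  · right
    rw [dF_e3] at hq
    have h1 : ∑ j : Fin 4, term j q = 1 := by
      unfold term; linarith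
    rw [Finset.sum_eq_single i] at h1
    · exact h1
    · intro j _ hj
      rcases term_disj q i j (Ne.symm hj) with h2 | h2
      · exact absurd h2 h
      · exact h2
    · intro h2; exact absurd (Finset.mem_univ i) h2

theorem exists_term {q : EE 4} (hq : dF q e3 = 0) : ∃ i, term i q = 1 := by
  by_contra hcon
  push Not at hcon
  have h1 : ∑ j : Fin 4, term j q = 0 :=
    Finset.sum_eq_zero fun j _ => (term_01 hq j).resolve_right (hcon j)
  rw [dF_e3] at hq
  unfold term at h1
  linarith

theorem no_reeb {ε K : ℝ} (hε : 0 < ε) (hK1 : 1 ≤ K) (hK : ∀ t, |ee t| ≤ K) (hεK : 8 * ε * K < 1)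
    (o : ℝ → QQ (Zn 4)) : ¬ IsReebCurve (lam ε) o := by
  intro h
  have hpt := reeb_point hε h
  have hpi := pi_pos
  -- a single index works for the whole curve
  obtain ⟨i, hi⟩ := exists_term (hpt 0).1
  have hcont : Continuous fun t => term i (inChart o t t) :=
    continuous_inv h.smooth (term_per i) (term_cont i)
  have hall : ∀ t, term i (inChart o t t) = 1 := by
    have hcl1 : IsClosed {t : ℝ | term i (inChart o t t) = 1} := isClosed_eq hcont continuous_const
    have hcl0 : IsClosed {t : ℝ | term i (inChart o t t) = 0} := isClosed_eq hcont continuous_const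
    have hcompl : {t : ℝ | term i (inChart o t t) = 1} = {t : ℝ | term i (inChart o t t) = 0}ᶜ := by
      ext t
      rcases term_01 (hpt t).1 i with h1 | h1
      · constructor
        · intro h2
          exfalso
          have h3 : term i (inChart o t t) = 1 := h2
          rw [h1] at h3; norm_num at h3
        · intro h2; exact absurd h1 h2
      · constructor
        · intro _ h3
          have h4 : term i (inChart o t t) = 0 := h3
          rw [h1] at h4; norm_num at h4
        · intro _; exact h1
    have hop : IsOpen {t : ℝ | term i (inChart o t t) = 1} := by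
      rw [hcompl]; exact hcl0.isOpen_compl
    have huniv : {t : ℝ | term i (inChart o t t) = 1} = univ :=
      IsClopen.eq_univ ⟨hcl1, hop⟩ ⟨0, hi⟩
    intro t
    have : t ∈ {t : ℝ | term i (inChart o t t) = 1} := by rw [huniv]; trivial
    exact this
  have hB : ∀ t, fB i (inChart o t t) ≠ 0 := by
    intro t h0
    have := hall t
    unfold term at this
    rw [h0] at this
    norm_num at this
  have hA : ∀ t, 1 ≤ |fA i (inChart o t t)| * K := by
    intro t
    have h1 := hall t
    unfold term at h1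
    have h2 : |fA i (inChart o t t) ^ 2 * fB i (inChart o t t) ^ 2 *
      ee ((inChart o t t : EE 4) 3 - (i : ℕ) / 4)| = 1 := by rw [h1]; simp
    rw [abs_mul, abs_mul, abs_pow, abs_pow] at h2
    have a1 := abs_fA i (inChart o t t)
    have a2 := abs_fB i (inChart o t t)
    have a3 := hK ((inChart o t t : EE 4) 3 - (i : ℕ) / 4)
    have n1 := abs_nonneg (fA i (inChart o t t))
    have n2 := abs_nonneg (fB i (inChart o t t))
    have b1 : |fA i (inChart o t t)| ^ 2 ≤ |fA i (inChart o t t)| := by nlinarith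
    have b2 : |fB i (inChart o t t)| ^ 2 ≤ 1 := by nlinarith
    rw [← h2]
    calc |fA i (inChart o t t)| ^ 2 * |fB i (inChart o t t)| ^ 2 *
          |ee ((inChart o t t : EE 4) 3 - (i : ℕ) / 4)|
        ≤ |fA i (inChart o t t)| * 1 * K := by
          apply mul_le_mul _ a3 (abs_nonneg _) (by positivity)
          exact mul_le_mul b1 b2 (by positivity) n1
      _ = |fA i (inChart o t t)| * K := by ring
  -- the periodic function `tan (π (x_j - a))`
  set P : EE 4 → ℝ := fun q => tan (π * (q (jj i) - aa i)) with hP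
  have hPper : ∀ (m : Fin 4 → ℤ) y, P (y + iv m) = P y := by
    intro m y
    simp only [hP]
    have : π * ((y + iv m) (jj i) - aa i) = π * (y (jj i) - aa i) + m (jj i) * π := by
      simp; ring
    rw [this, tan_add_int_mul_pi]
  have hV : ∀ t, HasDerivAt (fun s => P (inChart o s s))
      (1 / fB i (inChart o t t) ^ 2 * (π * (velocity o t : EE 4) (jj i))) t := by
    intro t
    have h1 : HasFDerivAt (fun q : EE 4 => π * (q (jj i) - aa i)) (π • pj (jj i)) (inChart o t t) :=
      (((pj (jj i)).hasFDerivAt (x := (inChart o t t : EE 4))).sub_const (aa i)).const_mul π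
    have h0 : cos (π * ((inChart o t t : EE 4) (jj i) - aa i)) ≠ 0 := hB t
    have h2 : HasFDerivAt P ((1 / fB i (inChart o t t) ^ 2) • (π • pj (jj i))) (inChart o t t) :=
      HasDerivAt.comp_hasFDerivAt (f := fun q : EE 4 => π * (q (jj i) - aa i))
        (inChart o t t : EE 4) (Real.hasDerivAt_tan h0) h1
    have h3 := hasDerivAt_inv h.smooth hPper t h2
    simpa using h3
  have hper : P (inChart o 0 0) = P (inChart o 1 1) := by
    have := inChart_shift (n := 4) h.periodic 0 0
    simp only [zero_add] at this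
    rw [this]
  obtain ⟨ξ, -, hξ⟩ := exists_hasDerivAt_eq_zero (f := fun s => P (inChart o s s))
    (f' := fun t => 1 / fB i (inChart o t t) ^ 2 * (π * (velocity o t : EE 4) (jj i)))
    (a := 0) (b := 1) one_pos (fun s _ => (hV s).continuousAt.continuousWithinAt) hper
    (fun s _ => hV s)
  have hu : (velocity o ξ : EE 4) (jj i) = 0 := by
    have h1 : 1 / fB i (inChart o ξ ξ) ^ 2 ≠ 0 := by
      have := hB ξ
      positivity
    rcases mul_eq_zero.1 hξ with h2 | h2
    · exact absurd h2 h1
    · rcases mul_eq_zero.1 h2 with h3 | h3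
      · exact absurd h3 hpi.ne'
      · exact h3
  obtain ⟨-, l, hl, hu0, hu1⟩ := hpt ξ
  simp only at hu0 hu1
  set q : EE 4 := inChart o ξ ξ with hq
  have hd : |ε * dF q e2 / (2 * π)| ≤ 8 * ε := by
    rw [abs_div, abs_mul, abs_of_pos hε, abs_of_pos (by positivity : 0 < 2 * π), div_le_iff₀ (by positivity)]
    have := mul_le_mul_of_nonneg_left (dF_e2_bound q) hε.le
    linarith
  have hs1 := abs_sin_le_one (2 * π * q 2)
  have hc1 := abs_cos_le_one (2 * π * q 2)
  have hAξ := hA ξ
  rw [← hq] at hAξ
  -- the two cases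
  have fin : ∀ x y : ℝ, |y| ≤ 1 → x = y * (ε * dF q e2 / (2 * π)) → 1 ≤ |x| * K → False := by
    intro x y hy hx h1
    have : |x| ≤ 8 * ε := by
      rw [hx, abs_mul]
      calc |y| * |ε * dF q e2 / (2 * π)| ≤ 1 * (8 * ε) := mul_le_mul hy hd (abs_nonneg _) zero_le_one
        _ = 8 * ε := one_mul _
    have h2 : |x| * K ≤ 8 * ε * K := mul_le_mul_of_nonneg_right this (by linarith)
    linarith
  have case0 : bb i = 0 → jj i = 0 → False := by
    intro hb hj
    rw [hj] at hu
    rw [hu] at hu0
    have h1 : cos (2 * π * q 2) + sin (2 * π * q 2) * (ε * dF q e2 / (2 * π)) = 0 := by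
      rcases mul_eq_zero.1 hu0.symm with h2 | h2
      · exact absurd h2 hl.ne'
      · exact h2
    have h2 : fA i q = cos (2 * π * q 2) := by unfold fA; rw [hb, sub_zero]
    rw [h2] at hAξ
    refine fin (cos (2 * π * q 2)) (-sin (2 * π * q 2)) (by rwa [abs_neg]) ?_ hAξ
    linear_combination h1
  have case1 : bb i = 1 / 4 → jj i = 1 → False := by
    intro hb hj
    rw [hj] at hu
    rw [hu] at hu1
    have h1 : sin (2 * π * q 2) - cos (2 * π * q 2) * (ε * dF q e2 / (2 * π)) = 0 := by
      rcases mul_eq_zero.1 hu1.symm with h2 | h2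
      · exact absurd h2 hl.ne'
      · exact h2
    have h2 : fA i q = sin (2 * π * q 2) := by
      unfold fA; rw [hb, ← cos_sub_pi_div_two]; ring_nf
    rw [h2] at hAξ
    refine fin (sin (2 * π * q 2)) (cos (2 * π * q 2)) hc1 ?_ hAξ
    linear_combination h1
  have hi4 : (bb i = 0 ∧ jj i = 0) ∨ (bb i = 1 / 4 ∧ jj i = 1) := by
    fin_cases i <;> simp [bb, jj]
  rcases hi4 with ⟨h1, h2⟩ | ⟨h1, h2⟩
  · exact case0 h1 h2
  · exact case1 h1 h2

/-- the counterexample. -/
theorem counterexample : ∃ lam alpha : OneForm 4 (QQ (Zn 4)),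
    IsExactLcs lam alpha ∧ IsRationalForm alpha ∧ ∀ o : ℝ → QQ (Zn 4), ¬ IsReebCurve lam o := by
  obtain ⟨K, hK1, hK⟩ := ee_bounded
  have hK0 : 0 < 1 + K := by linarith
  have hε : 0 < 1 / (16 * (1 + K)) := by positivity
  refine ⟨lam (1 / (16 * (1 + K))), alp, isExactLcs hε hK ?_, alp_rational, ?_⟩
  · rw [div_mul_eq_mul_div, div_lt_one (by positivity)]
    linarith
  · apply no_reeb hε hK1 hK
    have : 8 * (1 / (16 * (1 + K))) * K = K / (2 * (1 + K)) := by
      field_simp
      ring
    rw [this, div_lt_one (by positivity)]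
    linarith

end Pool.Agent.H660R3.LcsEx
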