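import Mathlib
import Pool.Agent.H660R3.QuotLor
set_option autoImplicit false
open Set Filter Topology
open scoped ContDiff Manifold

/-!
# A lattice in Sol acting on `ℝ³`
-/
namespace Pool.Agent.H660R3.Sol

/-- `φ²`, with `φ` the golden ratio. -/
noncomputable def mu : ℝ := Real.goldenRatio ^ 2
/-- `ψ²`, with `ψ` the conjugate of the golden ratio. -/
noncomputable def nu : ℝ := Real.goldenConj ^ 2

theorem mu_eq : mu = 1 + Real.goldenRatio := by
  unfold mu; rw [Real.goldenRatio_sq]; ring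

theorem nu_eq : nu = 1 + Real.goldenConj := by
  unfold nu; rw [Real.goldenConj_sq]; ring

theorem mu_gt_one : 1 < mu := by
  rw [mu_eq]; have := Real.goldenRatio_pos; linarith

theorem mu_pos : 0 < mu := lt_trans one_pos mu_gt_one

theorem mu_nu : mu * nu = 1 := by
  unfold mu nu
  rw [← mul_pow, Real.goldenRatio_mul_goldenConj]; norm_num

theorem nu_eq_inv : nu = mu⁻¹ := eq_inv_of_mul_eq_one_right mu_nu

theorem nu_pos : 0 < nu := by rw [nu_eq_inv]; exact inv_pos.2 mu_pos

theorem lattice (k : ℤ) : ∀ a b : ℤ, ∃ a' b' : ℤ,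
    nu ^ k * (a + b * Real.goldenConj) = a' + b' * Real.goldenConj ∧
    mu ^ k * (a + b * Real.goldenRatio) = a' + b' * Real.goldenRatio := by
  induction k using Int.induction_on with
  | zero => intro a b; exact ⟨a, b, by simp, by simp⟩
  | succ i ih =>
    intro a b
    obtain ⟨a', b', h1, h2⟩ := ih (a + b) (a + 2 * b)
    refine ⟨a', b', ?_, ?_⟩
    · rw [← h1, zpow_add_one₀ nu_pos.ne', nu_eq]
      push_cast
      have := Real.goldenConj_sq
      linear_combination (1 + Real.goldenConj) ^ (i : ℤ) * b * this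
    · rw [← h2, zpow_add_one₀ mu_pos.ne', mu_eq]
      push_cast
      have := Real.goldenRatio_sq
      linear_combination (1 + Real.goldenRatio) ^ (i : ℤ) * b * this
  | pred i ih =>
    intro a b
    obtain ⟨a', b', h1, h2⟩ := ih (2 * a - b) (b - a)
    refine ⟨a', b', ?_, ?_⟩
    · rw [← h1, zpow_sub_one₀ nu_pos.ne']
      have h3 : nu⁻¹ = 2 - Real.goldenConj := by
        rw [nu_eq]
        apply inv_eq_of_mul_eq_one_right
        linear_combination (-1) * Real.goldenConj_sq
      rw [h3]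
      push_cast
      have := Real.goldenConj_sq
      linear_combination -nu ^ (-(i : ℤ)) * b * this
    · rw [← h2, zpow_sub_one₀ mu_pos.ne']
      have h3 : mu⁻¹ = 2 - Real.goldenRatio := by
        rw [mu_eq]
        apply inv_eq_of_mul_eq_one_right
        linear_combination (-1) * Real.goldenRatio_sq
      rw [h3]
      push_cast
      have := Real.goldenRatio_sq
      linear_combination -mu ^ (-(i : ℤ)) * b * this

/-- the diffeomorphism `(x,y,z) ↦ (ψ^{2k} x + (a+bψ), φ^{2k} y + (a+bφ), z + k)`. -/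
noncomputable def act (k a b : ℤ) : Equiv.Perm (EE 3) where
  toFun v := !₂[nu ^ k * v 0 + (a + b * Real.goldenConj),
    mu ^ k * v 1 + (a + b * Real.goldenRatio), v 2 + k]
  invFun v := !₂[nu ^ (-k) * (v 0 - (a + b * Real.goldenConj)),
    mu ^ (-k) * (v 1 - (a + b * Real.goldenRatio)), v 2 - k]
  left_inv v := by
    have hn : (nu ^ k)⁻¹ * nu ^ k = 1 := inv_mul_cancel₀ (zpow_ne_zero _ nu_pos.ne')
    have hm : (mu ^ k)⁻¹ * mu ^ k = 1 := inv_mul_cancel₀ (zpow_ne_zero _ mu_pos.ne')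
    ext i
    fin_cases i
    · simp [← mul_assoc, hn]
    · simp [← mul_assoc, hm]
    · simp
  right_inv v := by
    have hn : nu ^ k * (nu ^ k)⁻¹ = 1 := mul_inv_cancel₀ (zpow_ne_zero _ nu_pos.ne')
    have hm : mu ^ k * (mu ^ k)⁻¹ = 1 := mul_inv_cancel₀ (zpow_ne_zero _ mu_pos.ne')
    ext i
    fin_cases i
    · simp [← mul_assoc, hn]
    · simp [← mul_assoc, hm]
    · simp

@[simp] theorem act_zero (k a b : ℤ) (v : EE 3) :
    act k a b v 0 = nu ^ k * v 0 + (a + b * Real.goldenConj) := rfl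
@[simp] theorem act_one (k a b : ℤ) (v : EE 3) :
    act k a b v 1 = mu ^ k * v 1 + (a + b * Real.goldenRatio) := rfl
@[simp] theorem act_two (k a b : ℤ) (v : EE 3) : act k a b v 2 = v 2 + k := rfl

theorem ext3 {u v : EE 3} (h0 : u 0 = v 0) (h1 : u 1 = v 1) (h2 : u 2 = v 2) : u = v := by
  ext i
  fin_cases i
  · exact h0
  · exact h1
  · exact h2

/-- the lattice. -/
noncomputable def Gam : Subgroup (Equiv.Perm (EE 3)) where
  carrier := {f | ∃ k a b : ℤ, f = act k a b}
  one_mem' := by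
    refine ⟨0, 0, 0, ?_⟩
    apply Equiv.ext
    intro v
    apply ext3 <;> simp
  mul_mem' := by
    rintro _ _ ⟨k, a, b, rfl⟩ ⟨k', a', b', rfl⟩
    obtain ⟨a'', b'', h1, h2⟩ := lattice k a' b'
    refine ⟨k + k', a + a'', b + b'', ?_⟩
    apply Equiv.ext
    intro v
    rw [Equiv.Perm.mul_apply]
    apply ext3
    · simp only [act_zero]
      rw [zpow_add₀ nu_pos.ne', mul_add, h1]
      push_cast; ring
    · simp only [act_one]
      rw [zpow_add₀ mu_pos.ne', mul_add, h2]
      push_cast; ring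
    · simp only [act_two]
      push_cast; ring
  inv_mem' := by
    rintro _ ⟨k, a, b, rfl⟩
    obtain ⟨a'', b'', h1, h2⟩ := lattice (-k) a b
    refine ⟨-k, -a'', -b'', ?_⟩
    apply Equiv.ext
    intro v
    rw [Equiv.Perm.inv_eq_iff_eq]
    have hn : nu ^ k * nu ^ (-k) = 1 := by rw [← zpow_add₀ nu_pos.ne']; simp
    have hm : mu ^ k * mu ^ (-k) = 1 := by rw [← zpow_add₀ mu_pos.ne']; simp
    apply ext3
    · simp only [act_zero]
      push_cast
      linear_combination (-v 0 + (a + b * Real.goldenConj)) * hn - nu ^ k * h1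
    · simp only [act_one]
      push_cast
      linear_combination (-v 1 + (a + b * Real.goldenRatio)) * hm - mu ^ k * h2
    · simp only [act_two]
      push_cast; ring

theorem mem_Gam {f : Equiv.Perm (EE 3)} : f ∈ Gam ↔ ∃ k a b : ℤ, f = act k a b := Iff.rfl

/-- the linear part. -/
noncomputable def lin (k : ℤ) : EE 3 →L[ℝ] EE 3 :=
  LinearMap.toContinuousLinearMap
    { toFun := fun v => !₂[nu ^ k * v 0, mu ^ k * v 1, v 2]
      map_add' := by
        intro u v
        apply ext3 <;> simp [mul_add]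
      map_smul' := by
        intro c v
        apply ext3
        · simp; ring
        · simp; ring
        · simp }

@[simp] theorem lin_zero (k : ℤ) (v : EE 3) : lin k v 0 = nu ^ k * v 0 := rfl
@[simp] theorem lin_one (k : ℤ) (v : EE 3) : lin k v 1 = mu ^ k * v 1 := rfl
@[simp] theorem lin_two (k : ℤ) (v : EE 3) : lin k v 2 = v 2 := rfl

theorem act_eq (k a b : ℤ) : (act k a b : EE 3 → EE 3) =
    fun v => lin k v + !₂[(a + b * Real.goldenConj : ℝ), (a + b * Real.goldenRatio : ℝ), (k : ℝ)] := by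
  funext v
  apply ext3 <;> simp

theorem hasFDerivAt_act (k a b : ℤ) (v : EE 3) : HasFDerivAt (act k a b) (lin k) v := by
  rw [act_eq]
  exact (lin k).hasFDerivAt.add_const _

theorem ab_zero {a b : ℤ} (h : (a : ℝ) + b * Real.goldenConj = 0) : a = 0 ∧ b = 0 := by
  have hb : b = 0 := by
    by_contra hb
    have hb' : (b : ℝ) ≠ 0 := by exact_mod_cast hb
    have h1 : Real.goldenConj = ((-a / b : ℚ) : ℝ) := by
      push_cast
      rw [eq_div_iff hb']
      linarith
    exact Real.goldenConj_irrational ⟨_, h1.symm⟩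
  subst hb
  refine ⟨?_, rfl⟩
  simpa using h

theorem act000 : act 0 0 0 = 1 := by
  apply Equiv.ext
  intro v
  apply ext3 <;> simp

theorem coord_le (v : EE 3) (i : Fin 3) : |v i| ≤ ‖v‖ := by
  simpa using PiLp.norm_apply_le v i

theorem gr_sub : Real.goldenRatio - Real.goldenConj = √5 := Real.goldenRatio_sub_goldenConj

theorem sqrt5_ge : 1 ≤ √(5 : ℝ) := by
  rw [Real.one_le_sqrt]; norm_num

instance : DiscGroup Gam where
  smooth := by
    rintro _ ⟨k, a, b, rfl⟩
    rw [act_eq]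
    exact (lin k).contDiff.add contDiff_const
  free := by
    rintro _ ⟨k, a, b, rfl⟩ x hx
    have h2 := congrArg (fun v : EE 3 => v 2) hx
    simp only [act_two] at h2
    have hk : k = 0 := by
      have : (k : ℝ) = 0 := by linarith
      exact_mod_cast this
    subst hk
    have h0 := congrArg (fun v : EE 3 => v 0) hx
    simp only [act_zero, zpow_zero, one_mul] at h0
    obtain ⟨rfl, rfl⟩ := ab_zero (by linarith : (a : ℝ) + b * Real.goldenConj = 0)
    exact act000
  pd := by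
    intro K L hK hL
    obtain ⟨R1, hR1⟩ := hK.isBounded.exists_norm_le
    obtain ⟨R2, hR2⟩ := hL.isBounded.exists_norm_le
    set R := max (max R1 R2) 0 with hR
    have hR0 : 0 ≤ R := le_max_right _ _
    obtain ⟨N, hN⟩ := exists_nat_ge (2 * R)
    set C : ℝ := R + mu ^ (N : ℤ) * R with hC
    obtain ⟨N', hN'⟩ := exists_nat_ge (C + 2 * C * 1 + 2 * C)
    have hfin : ((Finset.Icc (-(N : ℤ)) N ×ˢ Finset.Icc (-(2 * N' : ℤ)) (2 * N') ×ˢ
        Finset.Icc (-(2 * N' : ℤ)) (2 * N') : Finset (ℤ × ℤ × ℤ)) : Set (ℤ × ℤ × ℤ)).Finite :=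
      Finset.finite_toSet _
    refine Set.Finite.of_finite_image (f := fun γ : Gam => (γ : Equiv.Perm (EE 3))) ?_
      (Subtype.val_injective.injOn)
    refine (hfin.image (fun p => act p.1 p.2.1 p.2.2)).subset ?_
    rintro _ ⟨⟨_, ⟨k, a, b, rfl⟩⟩, ⟨w, ⟨v, hv, rfl⟩, hw⟩, rfl⟩
    refine ⟨(k, a, b), ?_, rfl⟩
    have hv' : ‖v‖ ≤ R := (hR1 v hv).trans ((le_max_left _ _).trans (le_max_left _ _))
    have hw' : ‖act k a b v‖ ≤ R := (hR2 _ hw).trans ((le_max_right _ _).trans (le_max_left _ _))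
    have hv0 := (coord_le v 0).trans hv'
    have hv1 := (coord_le v 1).trans hv'
    have hv2 := (coord_le v 2).trans hv'
    have hw0 := (coord_le _ 0).trans hw'
    have hw1 := (coord_le _ 1).trans hw'
    have hw2 := (coord_le _ 2).trans hw'
    simp only [act_zero, act_one, act_two] at hw0 hw1 hw2
    rw [abs_le] at hv2 hw2
    have hk1 : (k : ℝ) ≤ N := by linarith
    have hk2 : -(N : ℝ) ≤ k := by linarith
    have hk1' : k ≤ N := by exact_mod_cast hk1
    have hk2' : -(N : ℤ) ≤ k := by exact_mod_cast hk2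
    have hmu : mu ^ k ≤ mu ^ (N : ℤ) := zpow_le_zpow_right₀ mu_gt_one.le hk1'
    have hnu : nu ^ k ≤ mu ^ (N : ℤ) := by
      rw [nu_eq_inv, inv_zpow, ← zpow_neg]
      exact zpow_le_zpow_right₀ mu_gt_one.le (by linarith)
    have hmk : 0 < mu ^ k := zpow_pos mu_pos _
    have hnk : 0 < nu ^ k := zpow_pos nu_pos _
    have hA : |(a : ℝ) + b * Real.goldenConj| ≤ C := by
      have h1 : (a : ℝ) + b * Real.goldenConj =
        (nu ^ k * v 0 + (a + b * Real.goldenConj)) - nu ^ k * v 0 := by ring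
      rw [h1]
      refine (abs_sub _ _).trans ?_
      rw [abs_mul, abs_of_pos hnk]
      exact add_le_add hw0 (mul_le_mul hnu hv0 (abs_nonneg _) (zpow_pos mu_pos _).le)
    have hB : |(a : ℝ) + b * Real.goldenRatio| ≤ C := by
      have h1 : (a : ℝ) + b * Real.goldenRatio =
        (mu ^ k * v 1 + (a + b * Real.goldenRatio)) - mu ^ k * v 1 := by ring
      rw [h1]
      refine (abs_sub _ _).trans ?_
      rw [abs_mul, abs_of_pos hmk]
      exact add_le_add hw1 (mul_le_mul hmu hv1 (abs_nonneg _) (zpow_pos mu_pos _).le)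
    have hC0 : 0 ≤ C := (abs_nonneg _).trans hA
    have hb : |(b : ℝ)| ≤ 2 * C := by
      have h1 : (b : ℝ) * √5 = (a + b * Real.goldenRatio) - (a + b * Real.goldenConj) := by
        rw [← gr_sub]; ring
      have h2 : |(b : ℝ) * √5| ≤ 2 * C := by
        rw [h1]; refine (abs_sub _ _).trans ?_; linarith
      rw [abs_mul, abs_of_pos (by linarith [sqrt5_ge] : (0:ℝ) < √5)] at h2
      nlinarith [abs_nonneg (b : ℝ), sqrt5_ge]
    have hgc : |Real.goldenConj| ≤ 1 := by
      rw [abs_le]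
      exact ⟨by linarith [Real.neg_one_lt_goldenConj], by linarith [Real.goldenConj_neg]⟩
    have ha : |(a : ℝ)| ≤ C + 2 * C * 1 := by
      have h1 : (a : ℝ) = (a + b * Real.goldenConj) - b * Real.goldenConj := by ring
      rw [h1]
      refine (abs_sub _ _).trans ?_
      rw [abs_mul]
      exact add_le_add hA (mul_le_mul hb hgc (abs_nonneg _) (by linarith))
    have ha' : |(a : ℝ)| ≤ 2 * N' := by linarith
    have hb' : |(b : ℝ)| ≤ 2 * N' := by linarith
    rw [abs_le] at ha' hb'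
    simp only [Finset.coe_product, mem_prod, Finset.coe_Icc, mem_Icc]
    refine ⟨⟨hk2', hk1'⟩, ⟨?_, ?_⟩, ⟨?_, ?_⟩⟩
    · exact_mod_cast ha'.1
    · exact_mod_cast ha'.2
    · exact_mod_cast hb'.1
    · exact_mod_cast hb'.2

instance : CompactSpace (QQ Gam) := by
  apply compact_of_cover Gam (K := Metric.closedBall 0 10) (isCompact_closedBall _ _)
  intro y
  set k : ℤ := ⌊y 2⌋ with hk
  set x' : ℝ := nu ^ (-k) * y 0 with hx'
  set y' : ℝ := mu ^ (-k) * y 1 with hy'
  set t : ℝ := (y' - x') / √5 with ht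
  set s : ℝ := x' - t * Real.goldenConj with hs
  have h5 : (0:ℝ) < √5 := by linarith [sqrt5_ge]
  have hy2 : y' = s + t * Real.goldenRatio := by
    rw [hs]
    have : t * √5 = y' - x' := by rw [ht]; field_simp
    rw [← gr_sub] at this
    linarith
  have hx2 : x' = s + t * Real.goldenConj := by rw [hs]; ring
  refine ⟨act (-k) (-⌊s⌋) (-⌊t⌋), ⟨_, _, _, rfl⟩, ?_⟩
  have hs1 := Int.floor_le s
  have hs2 := Int.lt_floor_add_one s
  have ht1 := Int.floor_le t
  have ht2 := Int.lt_floor_add_one t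
  have hz1 := Int.floor_le (y 2)
  have hz2 := Int.lt_floor_add_one (y 2)
  have hg1 := Real.neg_one_lt_goldenConj
  have hg2 := Real.goldenConj_neg
  have hg3 := Real.goldenRatio_pos
  have hg4 := Real.goldenRatio_lt_two
  rw [mem_closedBall_zero_iff, EuclideanSpace.norm_eq, Real.sqrt_le_iff]
  refine ⟨by norm_num, ?_⟩
  have e0 : act (-k) (-⌊s⌋) (-⌊t⌋) y 0 = (s - ⌊s⌋) + (t - ⌊t⌋) * Real.goldenConj := by
    rw [act_zero, ← hx', hx2]; push_cast; ring
  have e1 : act (-k) (-⌊s⌋) (-⌊t⌋) y 1 = (s - ⌊s⌋) + (t - ⌊t⌋) * Real.goldenRatio := by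
    rw [act_one, ← hy', hy2]; push_cast; ring
  have e2 : act (-k) (-⌊s⌋) (-⌊t⌋) y 2 = y 2 - ⌊y 2⌋ := by
    rw [act_two]; push_cast; ring
  rw [Fin.sum_univ_three, e0, e1, e2]
  have b0 : |(s - ⌊s⌋) + (t - ⌊t⌋) * Real.goldenConj| ≤ 1 := by
    rw [abs_le]; constructor <;> nlinarith
  have b1 : |(s - ⌊s⌋) + (t - ⌊t⌋) * Real.goldenRatio| ≤ 3 := by
    rw [abs_le]; constructor <;> nlinarith
  have b2 : |y 2 - ⌊y 2⌋| ≤ 1 := by
    rw [abs_le]; constructor <;> linarith
  simp only [Real.norm_eq_abs]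
  have n0 := abs_nonneg ((s - ⌊s⌋) + (t - ⌊t⌋) * Real.goldenConj)
  have n1 := abs_nonneg ((s - ⌊s⌋) + (t - ⌊t⌋) * Real.goldenRatio)
  have n2 := abs_nonneg (y 2 - ⌊y 2⌋)
  nlinarith

end Pool.Agent.H660R3.Sol
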