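import Mathlib
import Pool.Agent.H660R3.SolGroup
set_option autoImplicit false
set_option synthInstance.maxHeartbeats 400000
open Set Filter Topology
open scoped ContDiff Manifold

/-!
# The metric `-φ^{4z} dx² + 2 φ^{-2z} dy dz` and its geodesics
-/
namespace Pool.Agent.H660R3.Sol

/-- `log φ²`. -/
noncomputable def cc : ℝ := Real.log mu

theorem cc_pos : 0 < cc := Real.log_pos mu_gt_one

/-- coordinate functionals. -/
noncomputable def p0 : EE 3 →L[ℝ] ℝ := EuclideanSpace.proj 0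
noncomputable def p1 : EE 3 →L[ℝ] ℝ := EuclideanSpace.proj 1
noncomputable def p2 : EE 3 →L[ℝ] ℝ := EuclideanSpace.proj 2

@[simp] theorem p0_apply (v : EE 3) : p0 v = v 0 := rfl
@[simp] theorem p1_apply (v : EE 3) : p1 v = v 1 := rfl
@[simp] theorem p2_apply (v : EE 3) : p2 v = v 2 := rfl

/-- the metric on `ℝ³`. -/
noncomputable def GG (y u v : EE 3) : ℝ :=
  -Real.exp (2 * cc * y 2) * (u 0 * v 0) +
      Real.exp (-(cc * y 2)) * (u 1 * v 2 + u 2 * v 1)

theorem GG_apply (y u v : EE 3) : GG y u v =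
    -Real.exp (2 * cc * y 2) * (u 0 * v 0) +
      Real.exp (-(cc * y 2)) * (u 1 * v 2 + u 2 * v 1) := rfl

theorem exp_cc (k : ℤ) : Real.exp (cc * k) = mu ^ k := by
  rw [← Real.rpow_intCast, Real.rpow_def_of_pos mu_pos]; rfl

theorem nuk (k : ℤ) : nu ^ k = Real.exp (-(cc * k)) := by
  rw [Real.exp_neg, exp_cc, nu_eq_inv, inv_zpow]

theorem GG_inv : ∀ γ ∈ Gam, ∀ y u v,
    GG (γ y) (fderiv ℝ γ y u) (fderiv ℝ γ y v) = GG y u v := by
  rintro _ ⟨k, a, b, rfl⟩ y u v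
  rw [(hasFDerivAt_act k a b y).fderiv, GG_apply, GG_apply]
  simp only [act_two, lin_zero, lin_one, lin_two, nuk, ← exp_cc]
  have h1 : Real.exp (2 * cc * (y 2 + k)) =
      Real.exp (2 * cc * y 2) * (Real.exp (cc * k) * Real.exp (cc * k)) := by
    rw [← Real.exp_add, ← Real.exp_add]; ring_nf
  have h2 : Real.exp (-(cc * (y 2 + k))) =
      Real.exp (-(cc * y 2)) * Real.exp (-(cc * k)) := by
    rw [← Real.exp_add]; ring_nf
  have h3 : Real.exp (cc * k) * Real.exp (-(cc * k)) = 1 := by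
    rw [← Real.exp_add]; simp
  rw [h1, h2]
  set A := Real.exp (cc * k)
  set B := Real.exp (-(cc * k))
  linear_combination (-Real.exp (2 * cc * y 2) * (u 0 * v 0) * (A * B + 1)
    + Real.exp (-(cc * y 2)) * (u 1 * v 2 + u 2 * v 1)) * h3

theorem GG_symm (y u v : EE 3) : GG y u v = GG y v u := by
  rw [GG_apply, GG_apply]; ring

theorem GG_symBil (y : EE 3) : IsSymBil (GG y) := by
  refine ⟨fun v => ⟨fun u u' => ?_, fun c u => ?_⟩, GG_symm y⟩
  · simp only [GG_apply, PiLp.add_apply]; ring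
  · simp only [GG_apply, PiLp.smul_apply, smul_eq_mul]; ring

theorem GG_sig (y : EE 3) : HasLorSig (GG y) := by
  set s : ℝ := √((2 * Real.exp (-(cc * y 2)))⁻¹) with hs
  set r : ℝ := √((Real.exp (2 * cc * y 2))⁻¹) with hr
  have hs2 : Real.exp (-(cc * y 2)) * (s * s) = 1 / 2 := by
    rw [hs, Real.mul_self_sqrt (by positivity)]
    have := Real.exp_pos (-(cc * y 2))
    field_simp
  have hr2 : Real.exp (2 * cc * y 2) * (r * r) = 1 := by
    rw [hr, Real.mul_self_sqrt (by positivity)]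
    have := Real.exp_pos (2 * cc * y 2)
    field_simp
  refine ⟨![!₂[0, s, s], !₂[0, s, -s], !₂[r, 0, 0]], ?_⟩
  intro i j
  rw [GG_apply]
  fin_cases i <;> fin_cases j <;> simp <;> linarith

theorem GG_smooth (u v : EE 3) : ContDiff ℝ ∞ (fun y => GG y u v) := by
  have : (fun y => GG y u v) = fun y : EE 3 => -Real.exp (2 * cc * p2 y) * (u 0 * v 0) +
      Real.exp (-(cc * p2 y)) * (u 1 * v 2 + u 2 * v 1) := by
    funext y; rw [GG_apply]; rfl
  rw [this]
  have h := p2.contDiff (n := ∞)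
  fun_prop

/-- the Lorentzian metric of the compact manifold `ℝ³/Gam`. -/
noncomputable def gSol : LorentzMetric 3 (QQ Gam) :=
  descendMetric GG GG_inv GG_symBil GG_sig GG_smooth

theorem fderiv_GG (y u v h : EE 3) : fderiv ℝ (fun y => GG y u v) y h =
    -(2 * cc * h 2 * Real.exp (2 * cc * y 2)) * (u 0 * v 0)
      - cc * h 2 * Real.exp (-(cc * y 2)) * (u 1 * v 2 + u 2 * v 1) := by
  have h1 : (fun y => GG y u v) = fun y : EE 3 => -Real.exp (2 * cc * p2 y) * (u 0 * v 0) +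
      Real.exp (-(cc * p2 y)) * (u 1 * v 2 + u 2 * v 1) := by
    funext y; rw [GG_apply]; rfl
  rw [h1]
  have h2 : HasFDerivAt (fun y : EE 3 => Real.exp (2 * cc * p2 y))
      (Real.exp (2 * cc * p2 y) • ((2 * cc) • p2)) y :=
    (p2.hasFDerivAt.const_mul (2 * cc)).exp
  have h3 : HasFDerivAt (fun y : EE 3 => Real.exp (-(cc * p2 y)))
      (Real.exp (-(cc * p2 y)) • (-(cc • p2))) y :=
    (p2.hasFDerivAt.const_mul cc).neg.exp
  have h4 : HasFDerivAt (fun y : EE 3 => -Real.exp (2 * cc * p2 y) * (u 0 * v 0) +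
      Real.exp (-(cc * p2 y)) * (u 1 * v 2 + u 2 * v 1)) _ y :=
    (h2.neg.mul_const (u 0 * v 0)).add (h3.mul_const (u 1 * v 2 + u 2 * v 1))
  rw [h4.fderiv]
  simp
  ring

/-- the geodesic equations in coordinates. -/
theorem geo_eqs {γ : ℝ → QQ Gam} {t : ℝ} (h : IsGeodesicAt gSol γ t) :
    let y := loc γ t t
    let v := deriv (loc γ t) t
    let a := deriv (deriv (loc γ t)) t
    a 0 = -2 * cc * v 2 * v 0 ∧ a 2 = cc * v 2 ^ 2 ∧
      Real.exp (-(cc * y 2)) * a 1 = -cc * Real.exp (2 * cc * y 2) * v 0 ^ 2 := by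
  intro y v a
  have h1 := isGeodesicAt_descend h
  have e1 := Real.exp_pos (2 * cc * y 2)
  have e2 := Real.exp_pos (-(cc * y 2))
  have w0 := h1 !₂[1, 0, 0]
  have w1 := h1 !₂[0, 1, 0]
  have w2 := h1 !₂[0, 0, 1]
  rw [fderiv_GG, fderiv_GG, GG_apply] at w0 w1 w2
  change (-Real.exp (2 * cc * y 2) * (a 0 * _) + Real.exp (-(cc * y 2)) * (a 1 * _ + a 2 * _)) +
    (-(2 * cc * v 2 * Real.exp (2 * cc * y 2)) * (v 0 * _)
      - cc * v 2 * Real.exp (-(cc * y 2)) * (v 1 * _ + v 2 * _)) -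
    (1 / 2) * (-(2 * cc * _ * Real.exp (2 * cc * y 2)) * (v 0 * v 0)
      - cc * _ * Real.exp (-(cc * y 2)) * (v 1 * v 2 + v 2 * v 1)) = 0 at w0 w1 w2
  simp at w0 w1 w2
  refine ⟨?_, ?_, ?_⟩
  · have h0 : Real.exp (2 * cc * y 2) * (a 0 + 2 * cc * v 2 * v 0) = 0 := by linarith
    rcases mul_eq_zero.1 h0 with h0 | h0
    · exact absurd h0 e1.ne'
    · linarith
  · have h0 : Real.exp (-(cc * y 2)) * (a 2 - cc * v 2 ^ 2) = 0 := by linarith
    rcases mul_eq_zero.1 h0 with h0 | h0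
    · exact absurd h0 e2.ne'
    · linarith
  · linarith

end Pool.Agent.H660R3.Sol
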