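import Mathlib
import Pool.Agent.H660R3.SolGeo
set_option autoImplicit false
set_option synthInstance.maxHeartbeats 400000
open Set Filter Topology
open scoped ContDiff Manifold

/-!
# No closed geodesic
-/
namespace Pool.Agent.H660R3.Sol

/-- `dz(γ')` -/
noncomputable def ZZ (γ : ℝ → QQ Gam) (t : ℝ) : ℝ := (deriv (loc γ t) t) 2
/-- `φ^{2z} dx(γ')` -/
noncomputable def XX (γ : ℝ → QQ Gam) (t : ℝ) : ℝ :=
  Real.exp (cc * (loc γ t t) 2) * (deriv (loc γ t) t) 0
/-- `φ^{-2z} dy(γ')` -/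
noncomputable def YY (γ : ℝ → QQ Gam) (t : ℝ) : ℝ :=
  Real.exp (-(cc * (loc γ t t) 2)) * (deriv (loc γ t) t) 1

theorem coord_deriv {f : ℝ → EE 3} {f' : EE 3} {t : ℝ} (h : HasDerivAt f f' t) (i : Fin 3) :
    HasDerivAt (fun s => f s i) (f' i) t :=
  (EuclideanSpace.proj (𝕜 := ℝ) (ι := Fin 3) i).hasFDerivAt.comp_hasDerivAt t h

theorem inv_local {γ : ℝ → QQ Gam} (hγ : ContMDiff 𝓘(ℝ, ℝ) (𝓡 3) ∞ γ) (t : ℝ) :
    ∀ᶠ s in 𝓝 t, ZZ γ s = (deriv (loc γ t) s) 2 ∧
      XX γ s = Real.exp (cc * (loc γ t s) 2) * (deriv (loc γ t) s) 0 ∧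
      YY γ s = Real.exp (-(cc * (loc γ t s) 2)) * (deriv (loc γ t) s) 1 := by
  have hd : ∀ᶠ s in 𝓝 t, ContDiffAt ℝ 1 (loc γ t) s :=
    ((loc_contDiffAt hγ t).of_le (by simp)).eventually (by simp)
  filter_upwards [loc_local hγ.continuous t, hd] with s hs1 hs2
  obtain ⟨_, ⟨k, a, b, rfl⟩, h⟩ := hs1
  have h0 : loc γ s s = act k a b (loc γ t s) := h.self_of_nhds
  have hd : HasDerivAt (loc γ t) (deriv (loc γ t) s) s :=
    (hs2.differentiableAt (by simp)).hasDerivAt
  have h1 : deriv (loc γ s) s = lin k (deriv (loc γ t) s) := by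
    have e1 : loc γ s =ᶠ[𝓝 s] fun r => act k a b (loc γ t r) := h
    rw [e1.deriv_eq]
    exact ((hasFDerivAt_act k a b _).comp_hasDerivAt s hd).deriv
  have e1 : Real.exp (cc * ((loc γ t s) 2 + k)) = Real.exp (cc * (loc γ t s) 2) * Real.exp (cc * k) := by
    rw [← Real.exp_add]; ring_nf
  have e2 : Real.exp (-(cc * ((loc γ t s) 2 + k))) =
      Real.exp (-(cc * (loc γ t s) 2)) * Real.exp (-(cc * k)) := by
    rw [← Real.exp_add]; ring_nf
  have e3 : Real.exp (cc * k) * Real.exp (-(cc * k)) = 1 := by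
    rw [← Real.exp_add]; simp
  refine ⟨?_, ?_, ?_⟩
  · rw [ZZ, h1, lin_two]
  · rw [XX, h1, h0, lin_zero, act_two, nuk, e1]
    linear_combination Real.exp (cc * (loc γ t s) 2) * (deriv (loc γ t) s) 0 * e3
  · rw [YY, h1, h0, lin_one, act_two, ← exp_cc, e2]
    linear_combination Real.exp (-(cc * (loc γ t s) 2)) * (deriv (loc γ t) s) 1 * e3

variable {γ : ℝ → QQ Gam}

theorem odes (hγ : ContMDiff 𝓘(ℝ, ℝ) (𝓡 3) ∞ γ) (hg : ∀ t, IsGeodesicAt gSol γ t) (t : ℝ) :
    HasDerivAt (ZZ γ) (cc * ZZ γ t ^ 2) t ∧ HasDerivAt (XX γ) (-cc * ZZ γ t * XX γ t) t ∧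
      HasDerivAt (YY γ) (-cc * ZZ γ t * YY γ t - cc * XX γ t ^ 2) t := by
  have hc := loc_contDiffAt hγ t
  have hd1 : HasDerivAt (loc γ t) (deriv (loc γ t) t) t :=
    (hc.differentiableAt (by simp)).hasDerivAt
  have hd2 : HasDerivAt (deriv (loc γ t)) (deriv (deriv (loc γ t)) t) t := by
    have : ContDiffAt ℝ 1 (deriv (loc γ t)) t := by
      have h1 := hc.fderiv_right (m := 1) (by norm_cast)
      have h2 : deriv (loc γ t) = fun s => fderiv ℝ (loc γ t) s 1 := by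
        funext s; simp
      rw [h2]
      exact h1.clm_apply contDiffAt_const
    exact (this.differentiableAt (by simp)).hasDerivAt
  obtain ⟨h0, h2, h1⟩ := geo_eqs (hg t)
  simp only at h0 h1 h2
  have hl := inv_local hγ t
  have e3 : Real.exp (cc * (loc γ t t) 2) * Real.exp (-(cc * (loc γ t t) 2)) = 1 := by
    rw [← Real.exp_add]; simp
  have e4 : Real.exp (2 * cc * (loc γ t t) 2) =
      Real.exp (cc * (loc γ t t) 2) * Real.exp (cc * (loc γ t t) 2) := by
    rw [← Real.exp_add]; ring_nf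
  have hz : HasDerivAt (fun s => (loc γ t s) 2) ((deriv (loc γ t) t) 2) t := coord_deriv hd1 2
  refine ⟨?_, ?_, ?_⟩
  · have := (coord_deriv hd2 2).congr_of_eventuallyEq (hl.mono fun s hs => hs.1)
    rw [h2] at this
    exact this
  · have h3 : HasDerivAt (fun s => Real.exp (cc * (loc γ t s) 2) * (deriv (loc γ t) s) 0) _ t :=
      ((hz.const_mul cc).exp).mul (coord_deriv hd2 0)
    have := h3.congr_of_eventuallyEq (hl.mono fun s hs => hs.2.1)
    refine this.congr_deriv ?_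
    rw [h0, XX, ZZ]
    ring
  · have h3 : HasDerivAt (fun s => Real.exp (-(cc * (loc γ t s) 2)) * (deriv (loc γ t) s) 1) _ t :=
      ((hz.const_mul cc).neg.exp).mul (coord_deriv hd2 1)
    have := h3.congr_of_eventuallyEq (hl.mono fun s hs => hs.2.2)
    refine this.congr_deriv ?_
    simp only [Pi.neg_apply]
    rw [h1, XX, YY, ZZ, e4]
    ring

theorem periodic_aux {L : ℝ} (hL : ∀ t, γ (t + L) = γ t) (t : ℝ) :
    ∀ᶠ s in 𝓝 t, loc γ (t + L) (s + L) = loc γ t s := by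
  refine Eventually.of_forall fun s => ?_
  unfold loc inChart
  rw [hL, hL]

theorem loc_shift {L : ℝ} (hL : ∀ t, γ (t + L) = γ t) (t s : ℝ) :
    loc γ (t + L) (s + L) = loc γ t s := by
  unfold loc inChart
  rw [hL, hL]

theorem deriv_shift {L : ℝ} (hL : ∀ t, γ (t + L) = γ t) (t : ℝ) :
    deriv (loc γ (t + L)) (t + L) = deriv (loc γ t) t := by
  have h : (fun s => loc γ (t + L) (s + L)) = loc γ t := funext fun s => loc_shift hL t s
  rw [← h]
  rw [deriv_comp_add_const]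

theorem ZZ_per {L : ℝ} (hL : ∀ t, γ (t + L) = γ t) (t : ℝ) : ZZ γ (t + L) = ZZ γ t := by
  unfold ZZ; rw [deriv_shift hL]

theorem YY_per {L : ℝ} (hL : ∀ t, γ (t + L) = γ t) (t : ℝ) : YY γ (t + L) = YY γ t := by
  unfold YY; rw [deriv_shift hL, loc_shift hL]

theorem ZZ_zero {L : ℝ} (hL0 : 0 < L) (hL : ∀ t, γ (t + L) = γ t)
    (hγ : ContMDiff 𝓘(ℝ, ℝ) (𝓡 3) ∞ γ) (hg : ∀ t, IsGeodesicAt gSol γ t) (t : ℝ) : ZZ γ t = 0 := by
  have hd := fun s => (odes hγ hg s).1
  have hmono : Monotone (ZZ γ) := by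
    apply monotone_of_deriv_nonneg (fun s => (hd s).differentiableAt)
    intro s
    rw [(hd s).deriv]
    have := cc_pos
    positivity
  obtain ⟨ξ, hξ, hξ2⟩ := exists_hasDerivAt_eq_zero (f := ZZ γ) (f' := fun s => cc * ZZ γ s ^ 2)
    (a := t) (b := t + L) (by linarith) (fun s _ => (hd s).continuousAt.continuousWithinAt)
    (ZZ_per hL t).symm (fun s _ => hd s)
  have h0 : ZZ γ ξ = 0 := by
    rcases mul_eq_zero.1 hξ2 with h | h
    · exact absurd h cc_pos.ne'
    · exact pow_eq_zero_iff (two_ne_zero) |>.1 h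
  apply le_antisymm
  · rw [← h0]; exact hmono hξ.1.le
  · rw [← h0, ← ZZ_per hL t]; exact hmono hξ.2.le

theorem XX_zero {L : ℝ} (hL0 : 0 < L) (hL : ∀ t, γ (t + L) = γ t)
    (hγ : ContMDiff 𝓘(ℝ, ℝ) (𝓡 3) ∞ γ) (hg : ∀ t, IsGeodesicAt gSol γ t) (t : ℝ) :
    XX γ t = 0 ∧ YY γ t = YY γ 0 := by
  have hZ := ZZ_zero hL0 hL hγ hg
  have hd := fun s => (odes hγ hg s).2.1
  have hd2 := fun s => (odes hγ hg s).2.2
  have hX : ∀ s, XX γ s = XX γ 0 := fun s =>
    is_const_of_deriv_eq_zero (fun r => (hd r).differentiableAt)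
      (fun r => by rw [(hd r).deriv, hZ]; simp) s 0
  obtain ⟨ξ, hξ, hξ2⟩ := exists_hasDerivAt_eq_zero (f := YY γ)
    (f' := fun s => -cc * ZZ γ s * YY γ s - cc * XX γ s ^ 2)
    (a := 0) (b := 0 + L) (by linarith) (fun s _ => (hd2 s).continuousAt.continuousWithinAt)
    (YY_per hL 0).symm (fun s _ => hd2 s)
  rw [hZ] at hξ2
  have h0 : XX γ ξ = 0 := by
    have : cc * XX γ ξ ^ 2 = 0 := by linarith
    rcases mul_eq_zero.1 this with h | h
    · exact absurd h cc_pos.ne'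
    · exact pow_eq_zero_iff (two_ne_zero) |>.1 h
  have hX0 : ∀ s, XX γ s = 0 := fun s => by rw [hX s, ← hX ξ, h0]
  refine ⟨hX0 t, ?_⟩
  exact is_const_of_deriv_eq_zero (fun r => (hd2 r).differentiableAt)
      (fun r => by rw [(hd2 r).deriv, hZ, hX0]; simp) t 0

/-- the velocity in the chart at `t`, along the curve near `t`. -/
theorem loc_line {L : ℝ} (hL0 : 0 < L) (hL : ∀ t, γ (t + L) = γ t)
    (hγ : ContMDiff 𝓘(ℝ, ℝ) (𝓡 3) ∞ γ) (hg : ∀ t, IsGeodesicAt gSol γ t) (t : ℝ) :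
    ∀ᶠ s in 𝓝 t, loc γ t s = loc γ t t +
      !₂[0, Real.exp (cc * (loc γ t t) 2) * YY γ 0 * (s - t), 0] := by
  have hl := inv_local hγ t
  have hd : ∀ᶠ s in 𝓝 t, ContDiffAt ℝ 1 (loc γ t) s :=
    ((loc_contDiffAt hγ t).of_le (by simp)).eventually (by simp)
  obtain ⟨ε, hε, hball⟩ := Metric.eventually_nhds_iff_ball.1 (hl.and hd)
  have hZ := ZZ_zero hL0 hL hγ hg
  have hX := fun s => (XX_zero hL0 hL hγ hg s).1
  have hY := fun s => (XX_zero hL0 hL hγ hg s).2
  have hconv : Convex ℝ (Metric.ball t ε) := convex_ball t ε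
  have ht : t ∈ Metric.ball t ε := Metric.mem_ball_self hε
  have hopen : IsOpen (Metric.ball t ε) := Metric.isOpen_ball
  have hder : ∀ s ∈ Metric.ball t ε, HasDerivAt (loc γ t) (deriv (loc γ t) s) s := fun s hs =>
    ((hball s hs).2.differentiableAt (by simp)).hasDerivAt
  -- the coordinates 0 and 2 are constant
  have const_of : ∀ f : ℝ → ℝ, (∀ s ∈ Metric.ball t ε, HasDerivAt f 0 s) →
      ∀ s ∈ Metric.ball t ε, f s = f t := by
    intro f hf s hs
    exact hopen.is_const_of_deriv_eq_zero hconv.isPreconnected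
      (fun r hr => (hf r hr).differentiableAt.differentiableWithinAt)
      (fun r hr => (hf r hr).deriv) hs ht
  have v2 : ∀ s ∈ Metric.ball t ε, (deriv (loc γ t) s) 2 = 0 := fun s hs => by
    rw [← (hball s hs).1.1, hZ]
  have v0 : ∀ s ∈ Metric.ball t ε, (deriv (loc γ t) s) 0 = 0 := fun s hs => by
    have := (hball s hs).1.2.1
    rw [hX] at this
    rcases mul_eq_zero.1 this.symm with h | h
    · exact absurd h (Real.exp_pos _).ne'
    · exact h
  have c2 : ∀ s ∈ Metric.ball t ε, (loc γ t s) 2 = (loc γ t t) 2 :=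
    const_of _ fun s hs => by
      have := coord_deriv (hder s hs) 2
      rwa [v2 s hs] at this
  have c0 : ∀ s ∈ Metric.ball t ε, (loc γ t s) 0 = (loc γ t t) 0 :=
    const_of _ fun s hs => by
      have := coord_deriv (hder s hs) 0
      rwa [v0 s hs] at this
  have v1 : ∀ s ∈ Metric.ball t ε, (deriv (loc γ t) s) 1 =
      Real.exp (cc * (loc γ t t) 2) * YY γ 0 := fun s hs => by
    have := (hball s hs).1.2.2
    rw [hY, c2 s hs] at this
    rw [this, ← mul_assoc, ← Real.exp_add]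
    simp
  have c1 : ∀ s ∈ Metric.ball t ε, (loc γ t s) 1 - Real.exp (cc * (loc γ t t) 2) * YY γ 0 * (s - t)
      = (loc γ t t) 1 - Real.exp (cc * (loc γ t t) 2) * YY γ 0 * (t - t) :=
    const_of (fun s => (loc γ t s) 1 - Real.exp (cc * (loc γ t t) 2) * YY γ 0 * (s - t)) fun s hs => by
      have h1 := coord_deriv (hder s hs) 1
      have h2 : HasDerivAt (fun s : ℝ => Real.exp (cc * (loc γ t t) 2) * YY γ 0 * (s - t))
        (Real.exp (cc * (loc γ t t) 2) * YY γ 0 * 1) s :=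
        ((hasDerivAt_id s).sub_const t).const_mul _
      have h3 := h1.sub h2
      rw [v1 s hs] at h3
      refine h3.congr_deriv ?_
      ring
  filter_upwards [hopen.mem_nhds ht] with s hs
  apply ext3
  · simp [c0 s hs]
  · have := c1 s hs
    simp only [sub_self, mul_zero, sub_zero] at this
    simp
    linarith
  · simp [c2 s hs]

/-- the candidate line. -/
noncomputable def line (γ : ℝ → QQ Gam) (t : ℝ) : EE 3 :=
  loc γ 0 0 + !₂[0, Real.exp (cc * (loc γ 0 0) 2) * YY γ 0 * t, 0]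

@[simp] theorem line_zero (t : ℝ) : line γ t 0 = (loc γ 0 0) 0 := by simp [line]
@[simp] theorem line_one (t : ℝ) : line γ t 1 =
  (loc γ 0 0) 1 + Real.exp (cc * (loc γ 0 0) 2) * YY γ 0 * t := by simp [line]
@[simp] theorem line_two (t : ℝ) : line γ t 2 = (loc γ 0 0) 2 := by simp [line]

theorem eq_line {L : ℝ} (hL0 : 0 < L) (hL : ∀ t, γ (t + L) = γ t)
    (hγ : ContMDiff 𝓘(ℝ, ℝ) (𝓡 3) ∞ γ) (hg : ∀ t, IsGeodesicAt gSol γ t) (t : ℝ) :
    γ t = pr Gam (line γ t) := by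
  have hcl : IsClosed {t | γ t = pr Gam (line γ t)} := by
    apply isClosed_eq hγ.continuous
    apply (continuous_pr Gam).comp
    have : line γ = fun t => loc γ 0 0 + !₂[0, Real.exp (cc * (loc γ 0 0) 2) * YY γ 0 * t, 0] := rfl
    rw [this]
    apply continuous_const.add
    refine (PiLp.continuous_toLp 2 (fun _ : Fin 3 => ℝ)).comp ?_
    apply continuous_pi
    intro i
    fin_cases i <;> simp <;> fun_prop
  have h0 : (0 : ℝ) ∈ {t | γ t = pr Gam (line γ t)} := by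
    have h1 : line γ 0 = loc γ 0 0 := by
      apply ext3 <;> simp
    change γ 0 = pr Gam (line γ 0)
    rw [h1]
    exact ((pr_loc hγ.continuous 0).self_of_nhds).symm
  have hop : IsOpen {t | γ t = pr Gam (line γ t)} := by
    rw [isOpen_iff_mem_nhds]
    intro t ht
    change γ t = pr Gam (line γ t) at ht
    have h1 : pr Gam (line γ t) = pr Gam (loc γ t t) := by
      rw [← ht, (pr_loc hγ.continuous t).self_of_nhds]
    obtain ⟨_, ⟨k, a, b, rfl⟩, h2⟩ := pr_eq_iff.1 h1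
    filter_upwards [loc_line hL0 hL hγ hg t, pr_loc hγ.continuous t] with s hs1 hs2
    have hmem : act k a b ∈ Gam := mem_Gam.2 ⟨k, a, b, rfl⟩
    rw [← hs2, hs1, ← pr_smul hmem (line γ s)]
    congr 1
    apply ext3
    · have := congrArg (fun v : EE 3 => v 0) h2
      simp at this
      simp
      linarith
    · have e1 := congrArg (fun v : EE 3 => v 1) h2
      have e2 := congrArg (fun v : EE 3 => v 2) h2
      simp at e1 e2
      have e3 : Real.exp (cc * (loc γ t t) 2) = mu ^ k * Real.exp (cc * (loc γ 0 0) 2) := by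
        rw [← e2, ← exp_cc, ← Real.exp_add]; ring_nf
      simp
      rw [e3, ← e1]
      ring
    · have := congrArg (fun v : EE 3 => v 2) h2
      simp at this
      simp
      linarith
  have huniv : {t | γ t = pr Gam (line γ t)} = univ :=
    IsClopen.eq_univ ⟨hcl, hop⟩ ⟨0, h0⟩
  have : t ∈ {t | γ t = pr Gam (line γ t)} := by rw [huniv]; trivial
  exact this

/-- every periodic geodesic (affinely parametrized) is constant. -/
theorem periodic_const {L : ℝ} (hL0 : 0 < L) (hL : ∀ t, γ (t + L) = γ t)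
    (hγ : ContMDiff 𝓘(ℝ, ℝ) (𝓡 3) ∞ γ) (hg : ∀ t, IsGeodesicAt gSol γ t) (s t : ℝ) :
    γ s = γ t := by
  have hl := eq_line hL0 hL hγ hg
  have h1 : pr Gam (line γ L) = pr Gam (line γ 0) := by
    rw [← hl, ← hl]
    simpa using hL 0
  obtain ⟨_, ⟨k, a, b, rfl⟩, h2⟩ := pr_eq_iff.1 h1
  have e0 := congrArg (fun v : EE 3 => v 0) h2
  have e1 := congrArg (fun v : EE 3 => v 1) h2
  have e2 := congrArg (fun v : EE 3 => v 2) h2
  simp at e0 e1 e2
  subst e2
  simp at e0 e1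
  obtain ⟨rfl, rfl⟩ := ab_zero e0
  simp [hL0.ne'] at e1
  rw [hl s, hl t]
  congr 1
  apply ext3 <;> simp [e1]

/-- `gSol` has no closed geodesic. -/
theorem no_closed (γ : ℝ → QQ Gam) (L : ℝ) : ¬ IsClosedGeodesic gSol γ L := by
  intro h
  obtain ⟨k, hk⟩ := h.injective 0 (L / 2) (periodic_const h.pos h.periodic h.smooth h.geodesic _ _)
  have h1 : (k : ℝ) = 1 / 2 := by
    have := h.pos
    field_simp
    have h2 : L * (1 - 2 * k) = 0 := by linarith
    rcases mul_eq_zero.1 h2 with h3 | h3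
    · exact absurd h3 this.ne'
    · linarith
  have h2 : (2 * k : ℤ) = 1 := by
    have : (2 * k : ℝ) = 1 := by rw [h1]; norm_num
    exact_mod_cast this
  omega

end Pool.Agent.H660R3.Sol
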